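import Pool.Agent.Y342.SK.Asm

/-!
# Negacyclic matrices
-/

set_option autoImplicit false

namespace Pool.Agent.Q148.PH

open Matrix Finset
open Pool.Agent.Y342.SK (Sg)
open Pool.Agent.H108R3.Had (IsPU evM)

/-- the `d`-th power of the negacyclic shift of order `m` -/
def Nz (m : ℕ) (d : ℤ) : Matrix (Fin m) (Fin m) ℤ := Matrix.of fun i j =>
  if (m : ℤ) ∣ ((i.val : ℤ) - j.val - d) then
    ((Int.negOnePow (((i.val : ℤ) - j.val - d) / m) : ℤˣ) : ℤ) else 0

variable {m : ℕ}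

theorem Nz_apply (d : ℤ) (i j : Fin m) : Nz m d i j = if (m : ℤ) ∣ ((i.val : ℤ) - j.val - d) then
    ((Int.negOnePow (((i.val : ℤ) - j.val - d) / m) : ℤˣ) : ℤ) else 0 := rfl

theorem unit_sg (u : ℤˣ) : Sg (u : ℤ) := by
  rcases Int.units_eq_one_or u with h | h <;> rw [h] <;> simp [Sg]

theorem Nz_T (d : ℤ) : (Nz m d)ᵀ = Nz m (-d) := by
  ext i j
  rw [Matrix.transpose_apply, Nz_apply, Nz_apply]
  have e : (i.val : ℤ) - j.val - -d = -((j.val : ℤ) - i.val - d) := by ring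
  rw [e]
  by_cases h : (m : ℤ) ∣ ((j.val : ℤ) - i.val - d)
  · rw [if_pos h, if_pos (dvd_neg.2 h), Int.neg_ediv_of_dvd h, Int.negOnePow_neg]
  · rw [if_neg h, if_neg (fun h' => h (dvd_neg.1 h'))]

theorem Nz_shift (d : ℤ) (hm : 0 < m) : Nz m (d + m) = -Nz m d := by
  ext i j
  rw [Matrix.neg_apply, Nz_apply, Nz_apply]
  obtain ⟨t, ht⟩ : ∃ t : ℤ, t = -1 := ⟨_, rfl⟩
  have e : (i.val : ℤ) - j.val - (d + m) = ((i.val : ℤ) - j.val - d) + t * m := by rw [ht]; ring
  have hm0 : (m : ℤ) ≠ 0 := by exact_mod_cast hm.ne'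
  rw [e]
  by_cases h : (m : ℤ) ∣ ((i.val : ℤ) - j.val - d)
  · rw [if_pos h, if_pos (by simpa using h), Int.add_mul_ediv_right _ _ hm0, Int.negOnePow_add, ht]
    simp
  · rw [if_neg h, if_neg (by simpa using h), neg_zero]

theorem Nz_one (hm : 0 < m) : Nz m 0 = 1 := by
  ext i j
  rw [Nz_apply, sub_zero]
  by_cases h : i = j
  · subst h
    rw [sub_self, if_pos (dvd_zero _), Int.zero_ediv, Int.negOnePow_zero, one_apply_eq]
    rfl
  · rw [one_apply_ne h, if_neg]
    rintro ⟨k, hk⟩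
    have h1 := i.isLt
    have h2 := j.isLt
    have h3 : (i.val : ℤ) ≠ j.val := fun h' => h (Fin.ext (by exact_mod_cast h'))
    have h4 : k = 0 := by
      by_contra hk0
      have h5 : (m : ℤ) ≤ |(m : ℤ) * k| := by
        rw [abs_mul, abs_of_nonneg (by positivity)]
        have : 1 ≤ |k| := Int.one_le_abs hk0
        nlinarith
      rw [← hk] at h5
      have h6 : |(i.val : ℤ) - j.val| < m := by
        rw [abs_lt]
        constructor <;> omega
      omega
    rw [h4, mul_zero] at hk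
    exact h3 (by omega)

theorem Nz_mul (hm : 0 < m) (d d' : ℤ) : Nz m d * Nz m d' = Nz m (d + d') := by
  have hm0 : (m : ℤ) ≠ 0 := by exact_mod_cast hm.ne'
  have hmp : (0 : ℤ) < m := by exact_mod_cast hm
  ext i j
  rw [Matrix.mul_apply]
  have hl := Int.emod_nonneg ((i.val : ℤ) - d) hm0
  have hl2 := Int.emod_lt_of_pos ((i.val : ℤ) - d) hmp
  obtain ⟨l, hlv⟩ : ∃ l : Fin m, (l.val : ℤ) = ((i.val : ℤ) - d) % m :=
    ⟨⟨(((i.val : ℤ) - d) % m).toNat, by omega⟩, by simp [Int.toNat_of_nonneg hl]⟩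
  obtain ⟨t, ht⟩ : ∃ t : ℤ, (i.val : ℤ) - l.val - d = t * m := by
    refine ⟨((i.val : ℤ) - d) / m, ?_⟩
    have := Int.emod_add_mul_ediv ((i.val : ℤ) - d) m
    rw [hlv]
    linarith
  rw [Finset.sum_eq_single l]
  · rw [Nz_apply, Nz_apply, Nz_apply, if_pos (Dvd.intro_left t ht.symm), ht,
      Int.mul_ediv_cancel _ hm0]
    have e : (i.val : ℤ) - j.val - (d + d') = ((l.val : ℤ) - j.val - d') + t * m := by
      linarith
    rw [e]
    by_cases h : (m : ℤ) ∣ ((l.val : ℤ) - j.val - d')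
    · rw [if_pos h, if_pos (by simpa using h), Int.add_mul_ediv_right _ _ hm0, Int.negOnePow_add]
      push_cast
      ring
    · rw [if_neg h, if_neg (by simpa using h), mul_zero]
  · intro k _ hk
    rw [Nz_apply, if_neg, zero_mul]
    intro h
    apply hk
    obtain ⟨u, hu⟩ := h
    have h1 : (k.val : ℤ) - l.val = (t - u) * m := by linarith
    have h2 := k.isLt
    have h3 := l.isLt
    have h4 : t - u = 0 := by
      by_contra hk0
      have h5 : (m : ℤ) ≤ |(t - u) * (m : ℤ)| := by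
        rw [abs_mul, abs_of_nonneg (by positivity : (0 : ℤ) ≤ (m : ℤ))]
        have : 1 ≤ |t - u| := Int.one_le_abs hk0
        nlinarith
      rw [← h1] at h5
      have h6 : |(k.val : ℤ) - l.val| < m := by
        rw [abs_lt]
        constructor <;> omega
      omega
    rw [h4, zero_mul] at h1
    exact Fin.ext (by omega)
  · intro h; exact absurd (mem_univ _) h

theorem Nz_comm (hm : 0 < m) (d d' : ℤ) : Nz m d * Nz m d' = Nz m d' * Nz m d := by
  rw [Nz_mul hm, Nz_mul hm, add_comm]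

theorem Nz_pow (hm : 0 < m) (d : ℤ) (n : ℕ) : Nz m d ^ n = Nz m (n * d) := by
  induction n with
  | zero => rw [pow_zero, Nat.cast_zero, zero_mul, Nz_one hm]
  | succ n ih =>
    rw [pow_succ, ih, Nz_mul hm]
    congr 1
    push_cast
    ring

theorem Nz_sg {d : ℤ} {i j : Fin m} (h : ((i.val : ℤ) - j.val) % m = d) : Sg (Nz m d i j) := by
  rw [Nz_apply, if_pos]
  · exact unit_sg _
  · rw [← h]
    exact Int.dvd_self_sub_emod

theorem Nz_zero {d : ℤ} {i j : Fin m} (hd0 : 0 ≤ d) (hdm : d < m)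
    (h : ((i.val : ℤ) - j.val) % m ≠ d) : Nz m d i j = 0 := by
  rw [Nz_apply, if_neg]
  intro h'
  apply h
  obtain ⟨t, ht⟩ := h'
  have e : (i.val : ℤ) - j.val = d + m * t := by linarith
  rw [e, Int.add_mul_emod_self_left, Int.emod_eq_of_lt hd0 hdm]

/-- a sequence placed at positions `o + 1, …, o + S` -/
def cm (m S o : ℕ) (f : ℕ → ℤ) : Matrix (Fin m) (Fin m) ℤ :=
  ∑ n ∈ range S, f n • Nz m (o + n + 1)

theorem cm_T (S o : ℕ) (f : ℕ → ℤ) :
    (cm m S o f)ᵀ = ∑ n ∈ range S, f n • Nz m (-(o + n + 1)) := by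
  unfold cm
  rw [transpose_sum]
  exact Finset.sum_congr rfl fun n _ => by rw [transpose_smul, Nz_T]

theorem cm_comm (hm : 0 < m) (S o S' o' : ℕ) (f f' : ℕ → ℤ) :
    cm m S o f * cm m S' o' f' = cm m S' o' f' * cm m S o f := by
  unfold cm
  rw [Finset.sum_mul_sum, Finset.sum_mul_sum, Finset.sum_comm]
  refine Finset.sum_congr rfl fun a _ => Finset.sum_congr rfl fun b _ => ?_
  rw [smul_mul_smul_comm, smul_mul_smul_comm, Nz_comm hm, mul_comm]

theorem cm_commT (hm : 0 < m) (S o S' o' : ℕ) (f f' : ℕ → ℤ) :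
    cm m S o f * (cm m S' o' f')ᵀ = (cm m S' o' f')ᵀ * cm m S o f := by
  rw [cm_T]
  unfold cm
  rw [Finset.sum_mul_sum, Finset.sum_mul_sum, Finset.sum_comm]
  refine Finset.sum_congr rfl fun a _ => Finset.sum_congr rfl fun b _ => ?_
  rw [smul_mul_smul_comm, smul_mul_smul_comm, Nz_comm hm, mul_comm]

theorem cm_Nz (hm : 0 < m) (S o : ℕ) (f : ℕ → ℤ) (d : ℤ) :
    Nz m d * cm m S o f = cm m S o f * Nz m d := by
  unfold cm
  rw [Finset.mul_sum, Finset.sum_mul]
  exact Finset.sum_congr rfl fun n _ => by rw [mul_smul_comm, smul_mul_assoc, Nz_comm hm]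

theorem cmT_Nz (hm : 0 < m) (S o : ℕ) (f : ℕ → ℤ) (d : ℤ) :
    Nz m d * (cm m S o f)ᵀ = (cm m S o f)ᵀ * Nz m d := by
  rw [cm_T, Finset.mul_sum, Finset.sum_mul]
  exact Finset.sum_congr rfl fun n _ => by rw [mul_smul_comm, smul_mul_assoc, Nz_comm hm]

/-- para-unitary matrices evaluated in a possibly noncommutative ring -/
theorem pu_eval {κ : Type} [Fintype κ] [DecidableEq κ] {S : ℕ} {W : ℕ → κ → κ → ℤ}
    (hW : IsPU S W) (i : κ) {R : Type} [Ring R] (z z' : R) (h1 : z * z' = 1) (h2 : z' * z = 1) :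
    ∑ a, (∑ n ∈ range S, W n i a • z ^ n) * (∑ n ∈ range S, W n i a • z' ^ n) =
      ((Fintype.card κ * S : ℕ) : R) := by
  have hcomm : ∀ a ∈ ({z, z'} : Set R), ∀ b ∈ ({z, z'} : Set R), a * b = b * a := by
    intro a ha b hb
    simp only [Set.mem_insert_iff, Set.mem_singleton_iff] at ha hb
    rcases ha with rfl | rfl <;> rcases hb with rfl | rfl
    · rfl
    · rw [h1, h2]
    · rw [h1, h2]
    · rfl
  obtain ⟨T, hT⟩ : ∃ T : Subalgebra ℤ R, T = Algebra.adjoin ℤ ({z, z'} : Set R) := ⟨_, rfl⟩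
  have hz : z ∈ T := by rw [hT]; exact Algebra.subset_adjoin (by simp)
  have hz' : z' ∈ T := by rw [hT]; exact Algebra.subset_adjoin (by simp)
  have hTc : ∀ a b : T, a * b = b * a := by
    subst hT
    have := Algebra.isMulCommutative_adjoin ℤ hcomm
    exact fun a b => this.is_comm.comm a b
  let inst : CommRing T := { (inferInstance : Ring T) with mul_comm := hTc }
  let u : T := ⟨z, hz⟩
  let v : T := ⟨z', hz'⟩
  have huv : u * v = 1 := Subtype.ext h1
  have h := @IsPU.left _ _ _ _ _ hW T inst u v huv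
  have h3 := congrFun (congrFun h i) i
  rw [Matrix.mul_apply] at h3
  have h4 := congrArg T.val h3
  rw [map_sum] at h4
  have h5 : ∀ a, T.val (evM W S u i a * (evM W S v)ᵀ a i) =
      (∑ n ∈ range S, W n i a • z ^ n) * (∑ n ∈ range S, W n i a • z' ^ n) := by
    intro a
    rw [map_mul]
    congr 1
    · change T.val (∑ n ∈ range S, ((W n i a : ℤ) : T) * u ^ n) = _
      rw [map_sum]
      refine Finset.sum_congr rfl fun n _ => ?_
      rw [map_mul, map_pow, map_intCast, zsmul_eq_mul]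
      rfl
    · change T.val (∑ n ∈ range S, ((W n i a : ℤ) : T) * v ^ n) = _
      rw [map_sum]
      refine Finset.sum_congr rfl fun n _ => ?_
      rw [map_mul, map_pow, map_intCast, zsmul_eq_mul]
      rfl
  rw [Finset.sum_congr rfl fun a _ => h5 a] at h4
  rw [h4, Matrix.smul_apply, Matrix.one_apply_eq, smul_eq_mul, mul_one, map_natCast]

theorem cm_eq (hm : 0 < m) (S o : ℕ) (f : ℕ → ℤ) :
    cm m S o f = Nz m (o + 1) * ∑ n ∈ range S, f n • Nz m 1 ^ n := by
  unfold cm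
  rw [Finset.mul_sum]
  refine Finset.sum_congr rfl fun n _ => ?_
  rw [mul_smul_comm, Nz_pow hm, Nz_mul hm]
  congr 2
  ring

theorem cmT_eq (hm : 0 < m) (S o : ℕ) (f : ℕ → ℤ) :
    (cm m S o f)ᵀ = (∑ n ∈ range S, f n • Nz m (-1) ^ n) * Nz m (-(o + 1)) := by
  rw [cm_T, Finset.sum_mul]
  refine Finset.sum_congr rfl fun n _ => ?_
  rw [smul_mul_assoc, Nz_pow hm, Nz_mul hm]
  congr 2
  ring

theorem cm_sum (hm : 0 < m) {κ : Type} [Fintype κ] [DecidableEq κ] {S : ℕ} {W : ℕ → κ → κ → ℤ}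
    (hW : IsPU S W) (i : κ) (o : ℕ) :
    ∑ a, cm m S o (fun n => W n i a) * (cm m S o (fun n => W n i a))ᵀ =
      ((Fintype.card κ : ℤ) * S) • (1 : Matrix (Fin m) (Fin m) ℤ) := by
  have h1 : Nz m 1 * Nz m (-1) = 1 := by rw [Nz_mul hm, add_neg_cancel, Nz_one hm]
  have h2 : Nz m (-1) * Nz m 1 = 1 := by rw [Nz_mul hm, neg_add_cancel, Nz_one hm]
  have h3 := pu_eval hW i (Nz m 1) (Nz m (-1)) h1 h2
  have h4 : ∀ a, cm m S o (fun n => W n i a) * (cm m S o (fun n => W n i a))ᵀ =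
      Nz m (o + 1) * ((∑ n ∈ range S, W n i a • Nz m 1 ^ n) *
        (∑ n ∈ range S, W n i a • Nz m (-1) ^ n)) * Nz m (-(o + 1)) := by
    intro a
    rw [cmT_eq hm, cm_eq hm]
    simp only [mul_assoc]
  rw [Finset.sum_congr rfl fun a _ => h4 a, ← Finset.sum_mul, ← Finset.mul_sum, h3]
  have h5 : (((Fintype.card κ * S : ℕ) : ℤ) • (1 : Matrix (Fin m) (Fin m) ℤ)) =
      ((Fintype.card κ * S : ℕ) : Matrix (Fin m) (Fin m) ℤ) := by
    rw [zsmul_eq_mul, mul_one]
    simp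
  rw [← h5, mul_smul_comm, smul_mul_assoc, mul_one, Nz_mul hm, add_neg_cancel, Nz_one hm]
  push_cast
  rfl

theorem cm_low {S o : ℕ} (f : ℕ → ℤ) (hS : o + S < m) {i j : Fin m} {n : ℕ} (hn : n < S)
    (h : ((i.val : ℤ) - j.val) % m = o + n + 1) :
    cm m S o f i j = f n * Nz m (o + n + 1) i j := by
  unfold cm
  rw [Matrix.sum_apply, Finset.sum_eq_single n]
  · rw [Matrix.smul_apply, smul_eq_mul]
  · intro k hk hkn
    rw [mem_range] at hk
    rw [Matrix.smul_apply, Nz_zero (by positivity) (by exact_mod_cast (by omega : o + k + 1 < m)),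
      smul_zero]
    rw [h]
    intro h'
    apply hkn
    omega
  · intro h'; exact absurd (mem_range.2 hn) h'

theorem cm_zero {S o : ℕ} (f : ℕ → ℤ) (hS : o + S < m) {i j : Fin m}
    (h : ∀ n < S, ((i.val : ℤ) - j.val) % m ≠ o + n + 1) :
    cm m S o f i j = 0 := by
  unfold cm
  rw [Matrix.sum_apply]
  refine Finset.sum_eq_zero fun k hk => ?_
  rw [mem_range] at hk
  rw [Matrix.smul_apply, Nz_zero (by positivity) (by exact_mod_cast (by omega : o + k + 1 < m))
    (h k hk), smul_zero]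

end Pool.Agent.Q148.PH
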