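import Pool.Agent.Q148.PH.Spl
import Pool.Agent.Q148.PH.Neg

/-!
# The algebra of the arms
-/

set_option autoImplicit false
set_option linter.unusedSectionVars false

namespace Pool.Agent.Q148.PH

open Matrix Finset
open scoped Kronecker
open Pool.Agent.Y342.SK

variable {ι κ μ : Type} [Fintype ι] [DecidableEq ι] [Fintype κ] [DecidableEq κ]
  [Fintype μ] [DecidableEq μ] (G : Gad ι κ)

/-- `∑ A a ⊗ C a` -/
def QQ (C : κ → Matrix μ μ ℤ) : Matrix (ι × μ) (ι × μ) ℤ := ∑ a, G.A a ⊗ₖ C a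

/-- the skew matrix of a family -/
def FF (C : κ → Matrix μ μ ℤ) : Matrix (ι × μ) (ι × μ) ℤ := QQ G C - (QQ G C)ᵀ

theorem QQT (C : κ → Matrix μ μ ℤ) : (QQ G C)ᵀ = ∑ a, (G.A a)ᵀ ⊗ₖ (C a)ᵀ := by
  unfold QQ
  rw [transpose_sum]
  exact Finset.sum_congr rfl fun a _ => (kroneckerMap_transpose _ _ _).symm

theorem FF_T (C : κ → Matrix μ μ ℤ) : (FF G C)ᵀ = -FF G C := by
  unfold FF
  rw [transpose_sub, transpose_transpose, neg_sub]

theorem mul_sum2 (X Y : κ → Matrix ι ι ℤ) (C D : κ → Matrix μ μ ℤ) :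
    (∑ a, X a ⊗ₖ C a) * (∑ a, Y a ⊗ₖ D a) = ∑ a, ∑ b, (X a * Y b) ⊗ₖ (C a * D b) := by
  rw [Finset.sum_mul]
  refine Finset.sum_congr rfl fun a _ => ?_
  rw [Finset.mul_sum]
  exact Finset.sum_congr rfl fun b _ => (mul_kronecker_mul _ _ _ _).symm

theorem QQ_anti (C D : κ → Matrix μ μ ℤ) (h : ∀ a b, C a * D b = D b * C a) :
    QQ G C * QQ G D + QQ G D * QQ G C = 0 := by
  unfold QQ
  rw [mul_sum2, mul_sum2]
  rw [Finset.sum_comm (f := fun a b => (G.A a * G.A b) ⊗ₖ (D a * C b)), ← Finset.sum_add_distrib]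
  refine Finset.sum_eq_zero fun a _ => ?_
  rw [← Finset.sum_add_distrib]
  refine Finset.sum_eq_zero fun b _ => ?_
  have h3 := G.AA a b
  unfold Pool.Agent.Y342.SK.Rel at h3
  rw [h a b, h3, ← add_kronecker]
  simp

theorem QQ_QQT (C D : κ → Matrix μ μ ℤ) (h : ∀ a b, C a * (D b)ᵀ = (D b)ᵀ * C a) :
    QQ G C * (QQ G D)ᵀ + (QQ G D)ᵀ * QQ G C =
      G.c • ((1 : Matrix ι ι ℤ) ⊗ₖ (∑ a, C a * (D a)ᵀ)) := by
  rw [QQT]
  unfold QQ
  rw [mul_sum2, mul_sum2]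
  rw [Finset.sum_comm (f := fun a b => ((G.A a)ᵀ * G.A b) ⊗ₖ ((D a)ᵀ * C b)),
    ← Finset.sum_add_distrib]
  have h3 : ∀ a, (∑ b, (G.A a * (G.A b)ᵀ) ⊗ₖ (C a * (D b)ᵀ)) +
      (∑ b, ((G.A b)ᵀ * G.A a) ⊗ₖ ((D b)ᵀ * C a)) =
      (G.c • (1 : Matrix ι ι ℤ)) ⊗ₖ (C a * (D a)ᵀ) := by
    intro a
    rw [← Finset.sum_add_distrib]
    rw [Finset.sum_eq_single a]
    · rw [← h a a, ← add_kronecker, G.AT, if_pos rfl]
    · intro b _ hb
      rw [← h a b, ← add_kronecker, G.AT, if_neg (Ne.symm hb), zero_kronecker]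
    · intro h; exact absurd (mem_univ _) h
  rw [Finset.sum_congr rfl fun a _ => h3 a]
  ext i j
  simp only [Matrix.sum_apply, kroneckerMap_apply, Matrix.smul_apply, Finset.mul_sum, smul_eq_mul,
    Finset.mul_sum]
  exact Finset.sum_congr rfl fun a _ => by ring

theorem FF_anti (C D : κ → Matrix μ μ ℤ) (h : ∀ a b, C a * D b = D b * C a)
    (h' : ∀ a b, C a * (D b)ᵀ = (D b)ᵀ * C a) {s : ℤ}
    (hs : ∑ a, C a * (D a)ᵀ = s • (1 : Matrix μ μ ℤ)) :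
    FF G C * FF G D + FF G D * FF G C = (-(2 * (G.c * s))) • (1 : Matrix (ι × μ) (ι × μ) ℤ) := by
  have h1 := QQ_anti G C D h
  have h2 := QQ_QQT G C D h'
  have h3 := congrArg Matrix.transpose h1
  have h4 := congrArg Matrix.transpose h2
  rw [hs, kronecker_smul, one_kronecker_one, smul_smul] at h2 h4
  rw [transpose_add, transpose_mul, transpose_mul, transpose_zero] at h3
  rw [transpose_add, transpose_mul, transpose_mul, transpose_transpose, transpose_smul,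
    transpose_one] at h4
  have e : FF G C * FF G D + FF G D * FF G C =
      (QQ G C * QQ G D + QQ G D * QQ G C) + ((QQ G D)ᵀ * (QQ G C)ᵀ + (QQ G C)ᵀ * (QQ G D)ᵀ) -
      (QQ G C * (QQ G D)ᵀ + (QQ G D)ᵀ * QQ G C) -
      (QQ G D * (QQ G C)ᵀ + (QQ G C)ᵀ * QQ G D) := by
    unfold FF
    noncomm_ring
  rw [e, h1, h2, h3, h4]
  rw [← sub_eq_zero]
  ext i j
  simp only [Matrix.sub_apply, Matrix.add_apply, Matrix.zero_apply, Matrix.smul_apply, smul_eq_mul]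
  ring

theorem FF_sq (C : κ → Matrix μ μ ℤ) (h : ∀ a b, C a * C b = C b * C a)
    (h' : ∀ a b, C a * (C b)ᵀ = (C b)ᵀ * C a) {s : ℤ}
    (hs : ∑ a, C a * (C a)ᵀ = s • (1 : Matrix μ μ ℤ)) :
    FF G C * FF G C = (-(G.c * s)) • (1 : Matrix (ι × μ) (ι × μ) ℤ) := by
  have h1 := FF_anti G C C h h' hs
  ext i j
  have h2 := congrFun (congrFun h1 i) j
  rw [Matrix.add_apply, Matrix.smul_apply, smul_eq_mul] at h2
  rw [Matrix.smul_apply, smul_eq_mul]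
  linarith

theorem FF_rel (C D : κ → Matrix μ μ ℤ) (h : ∀ a b, C a * D b = D b * C a)
    (h' : ∀ a b, C a * (D b)ᵀ = (D b)ᵀ * C a)
    (hs : ∑ a, C a * (D a)ᵀ = 0) : Rel (-1) (FF G C) (FF G D) := by
  have h1 := FF_anti G C D h h' (s := 0) (by rw [hs, zero_smul])
  unfold Pool.Agent.Y342.SK.Rel
  rw [mul_zero, mul_zero, neg_zero, zero_smul] at h1
  rw [neg_one_smul]
  exact eq_neg_of_add_eq_zero_left h1

/-- a matrix `X ⊗ Z` with `X` skew or symmetric and anticommuting with the arms -/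
theorem X_FF {X : Matrix ι ι ℤ} {Z : Matrix μ μ ℤ} {s : ℤ} (hs : s * s = 1) (hX : Xᵀ = s • X)
    (hA : ∀ a, Rel (-1) X (G.A a)) (C : κ → Matrix μ μ ℤ) (hC : ∀ a, Z * C a = C a * Z)
    (hC' : ∀ a, Z * (C a)ᵀ = (C a)ᵀ * Z) : Rel (-1) (X ⊗ₖ Z) (FF G C) := by
  have h1 : (X ⊗ₖ Z) * QQ G C = (-1 : ℤ) • (QQ G C * (X ⊗ₖ Z)) := by
    unfold QQ
    rw [Finset.mul_sum, Finset.sum_mul, Finset.smul_sum]
    refine Finset.sum_congr rfl fun a _ => ?_
    have h2 := hA a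
    unfold Pool.Agent.Y342.SK.Rel at h2
    rw [← mul_kronecker_mul, ← mul_kronecker_mul, h2, hC, smul_kronecker]
  have h3 : (X ⊗ₖ Z) * (QQ G C)ᵀ = (-1 : ℤ) • ((QQ G C)ᵀ * (X ⊗ₖ Z)) := by
    rw [QQT, Finset.mul_sum, Finset.sum_mul, Finset.smul_sum]
    refine Finset.sum_congr rfl fun a _ => ?_
    have h2 := (hA a).transpose (by norm_num)
    unfold Pool.Agent.Y342.SK.Rel at h2
    rw [hX, smul_mul_assoc, mul_smul_comm, smul_comm] at h2
    have h4 : X * (G.A a)ᵀ = (-1 : ℤ) • ((G.A a)ᵀ * X) := by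
      have h5 := congrArg (fun M => s • M) h2
      simp only [smul_smul, mul_neg, mul_one, hs] at h5
      simpa [hs] using h5
    rw [← mul_kronecker_mul, ← mul_kronecker_mul, h4, hC', smul_kronecker]
  unfold Pool.Agent.Y342.SK.Rel FF
  rw [mul_sub, sub_mul, h1, h3, smul_sub]

end Pool.Agent.Q148.PH
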