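import Pool.Agent.Q148.PH.Sys

/-!
# All entries of the combined matrix are `±1`
-/

set_option autoImplicit false
set_option linter.unusedSectionVars false

namespace Pool.Agent.Q148.PH

open Matrix Finset
open scoped Kronecker
open Pool.Agent.Y342.SK
open Pool.Agent.H108R3.Had (IsPU)

theorem slot_exists {L o : ℕ → ℕ} (h0 : o 0 = 0) (ho : ∀ t, o (t + 1) = o t + L t) (K : ℕ) :
    ∀ d, 1 ≤ d → d ≤ o K → ∃ t < K, ∃ n < L t, d = o t + n + 1 := by
  induction K with
  | zero => intro d h1 h2; omega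
  | succ K ih =>
    intro d h1 h2
    rw [ho] at h2
    by_cases h : d ≤ o K
    · obtain ⟨t, h3, n, h4, h5⟩ := ih d h1 h
      exact ⟨t, by omega, n, h4, h5⟩
    · exact ⟨K, by omega, d - o K - 1, by omega, by omega⟩

theorem o_mono {L o : ℕ → ℕ} (ho : ∀ t, o (t + 1) = o t + L t) {t t' : ℕ} (h : t ≤ t') :
    o t ≤ o t' := by
  induction t', h using Nat.le_induction with
  | base => exact le_rfl
  | succ t' _ ih => rw [ho]; omega

theorem slot_unique {L o : ℕ → ℕ} (ho : ∀ t, o (t + 1) = o t + L t) {t t' n n' : ℕ}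
    (hn : n < L t) (hn' : n' < L t') (h : o t + n + 1 = o t' + n' + 1) : t = t' := by
  rcases lt_trichotomy t t' with h1 | h1 | h1
  · have h2 := o_mono ho (show t + 1 ≤ t' from h1)
    rw [ho] at h2
    omega
  · exact h1
  · have h2 := o_mono ho (show t' + 1 ≤ t from h1)
    rw [ho] at h2
    omega

variable {ι κ : Type} [Fintype ι] [DecidableEq ι] [Fintype κ] [DecidableEq κ]

theorem FF_apply {μ : Type} [Fintype μ] [DecidableEq μ] (G : Gad ι κ) (C : κ → Matrix μ μ ℤ)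
    (u v : ι) (p q : μ) : FF G C (u, p) (v, q) =
      ∑ a, G.A a u v * C a p q - ∑ a, G.A a v u * C a q p := by
  unfold FF QQ
  simp only [Matrix.sub_apply, transpose_apply, Matrix.sum_apply, kroneckerMap_apply]

theorem sg_sum (G : Gad ι κ) (u v : ι) (f : κ → ℤ) (hf : ∀ a, Sg (f a)) :
    Sg (∑ a, G.A a u v * f a) := by
  obtain ⟨a, ha, hb⟩ := G.sup u v
  rw [Finset.sum_eq_single a]
  · exact ha.mul (hf a)
  · intro b _ hba
    rw [hb b hba, zero_mul]
  · intro h; exact absurd (mem_univ _) h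

theorem sg_one : Sg 1 := Or.inl rfl

variable {k : ℕ} {G : Gad ι κ} {j : ℕ} {P : ℕ → Matrix ι ι ℤ} (hP : Spl G j P)
  {h s : ℕ} {L o : ℕ → ℕ} {W : ℕ → ℕ → Fin (2 ^ k) → Fin (2 ^ k) → ℤ}
  {i₀ : Fin (2 ^ k)} {e : κ ≃ Fin 2 × Fin (2 ^ k)}
  (h0 : o 0 = 0) (ho : ∀ t, o (t + 1) = o t + L t) (hh : h = o (s + 1) + 1)
  (hW : ∀ t ≤ s, IsPU (L t) (W t))

include hW in
theorem sq_sg {t n : ℕ} (ht : t ≤ s) (hn : n < L t) (a : Fin 2 × Fin (2 ^ k)) :
    Sg (sq s W i₀ t a n) := by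
  unfold sq
  refine Sg.mul ?_ ((hW t ht).sign n hn _ _)
  split_ifs
  · exact sg_one
  · unfold sg2 Sg; split_ifs <;> simp

include ho hh in
theorem off_lt {t : ℕ} (ht : t ≤ s) : o t + L t < h := by
  have := o_mono ho (show t + 1 ≤ s + 1 by omega)
  rw [ho] at this
  omega

include ho hh in
theorem cc_zero {t : ℕ} (ht : t ≤ s) (a : κ) {p q : Fin (2 * h)}
    (hpq : ((p.val : ℤ) - q.val) % ((2 * h : ℕ) : ℤ) = 0 ∨
      (h : ℤ) ≤ ((p.val : ℤ) - q.val) % ((2 * h : ℕ) : ℤ)) :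
    cc (2 * h) s L o W i₀ e t a p q = 0 := by
  have h1 := off_lt ho hh ht
  refine cm_zero _ (by omega) fun n hn => ?_
  rcases hpq with h2 | h2
  · rw [h2]; omega
  · intro h3
    rw [h3] at h2
    omega

include h0 ho hh hW in
/-- the value at a low position -/
theorem low_value {d : ℕ} (h1 : 1 ≤ d) (h2 : d < h) (ε : ℕ → ℤ) (hε : ∀ t ≤ s, Sg (ε t)) :
    ∃ f : κ → ℤ, (∀ a, Sg (f a)) ∧ ∀ p q : Fin (2 * h),
      ((p.val : ℤ) - q.val) % ((2 * h : ℕ) : ℤ) = d → ∀ a,
        ∑ t ∈ range (s + 1), ε t * cc (2 * h) s L o W i₀ e t a p q = f a * Nz (2 * h) d p q := by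
  obtain ⟨t, ht, n, hn, hd⟩ := slot_exists h0 ho (s + 1) d h1 (by omega)
  refine ⟨fun a => ε t * sq s W i₀ t (e a) n, fun a => (hε t (by omega)).mul
    (sq_sg hW (by omega) hn _), fun p q hpq a => ?_⟩
  rw [Finset.sum_eq_single t]
  · have h3 := off_lt ho hh (show t ≤ s by omega)
    have h4 : cc (2 * h) s L o W i₀ e t a p q =
        sq s W i₀ t (e a) n * Nz (2 * h) (o t + n + 1) p q :=
      cm_low _ (by omega) hn (by rw [hpq, hd]; push_cast; ring)
    rw [h4, hd]
    push_cast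
    ring
  · intro t' ht' hne
    rw [mem_range] at ht'
    have h3 := off_lt ho hh (show t' ≤ s by omega)
    have h4 : cc (2 * h) s L o W i₀ e t' a p q = 0 := by
      refine cm_zero _ (by omega) fun n' hn' => ?_
      rw [hpq, hd]
      intro h5
      exact hne (slot_unique ho hn' hn (by push_cast at h5; omega))
    rw [h4, mul_zero]
  · intro h'; exact absurd (mem_range.2 ht) h'

theorem emod_swap {m : ℕ} (hm : 0 < m) {a b : ℤ} (h : (a - b) % (m : ℤ) ≠ 0) :
    (b - a) % (m : ℤ) = m - (a - b) % (m : ℤ) := by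
  have hm0 : (m : ℤ) ≠ 0 := by exact_mod_cast hm.ne'
  have hmp : (0 : ℤ) < m := by exact_mod_cast hm
  have h1 := Int.emod_nonneg (a - b) hm0
  have h2 := Int.emod_lt_of_pos (a - b) hmp
  have h3 := Int.emod_add_mul_ediv (a - b) m
  have e : b - a = (m - (a - b) % (m : ℤ)) + m * (-1 - (a - b) / (m : ℤ)) := by linarith
  rw [e, Int.add_mul_emod_self_left, Int.emod_eq_of_lt (by omega) (by omega)]

theorem fin_eq_of_emod {m : ℕ} {p q : Fin m} (h : ((p.val : ℤ) - q.val) % (m : ℤ) = 0) : p = q := by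
  have h1 := p.isLt
  have h2 := q.isLt
  obtain ⟨t, ht⟩ := Int.dvd_of_emod_eq_zero h
  have h3 : t = 0 := by
    by_contra hk0
    have h5 : (m : ℤ) ≤ |(m : ℤ) * t| := by
      rw [abs_mul, abs_of_nonneg (by positivity : (0 : ℤ) ≤ (m : ℤ))]
      have : 1 ≤ |t| := Int.one_le_abs hk0
      nlinarith
    rw [← ht] at h5
    have h6 : |(p.val : ℤ) - q.val| < m := by
      rw [abs_lt]
      constructor <;> omega
    omega
  rw [h3, mul_zero] at ht
  exact Fin.ext (by omega)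

include hP h0 ho hh hW in
theorem entries {ζ : ℤ} (hζ : Sg ζ) {γ : ℕ → ℤ} (hγ : ∀ i ≤ j, Sg (γ i)) {ε : ℕ → ℤ}
    (hε : ∀ t ≤ s, Sg (ε t)) (x y : ι × Fin (2 * h)) :
    Sg (ζ * (1 : Matrix (ι × Fin (2 * h)) (ι × Fin (2 * h)) ℤ) x y +
      ∑ i ∈ range (j + 1), γ i * TT G j P h i x y +
      ∑ t ∈ range (s + 1), ε t * FF G (cc (2 * h) s L o W i₀ e t) x y) := by
  obtain ⟨u, p⟩ := x
  obtain ⟨v, q⟩ := y
  have hh1 : 1 ≤ h := by omega
  have hm0 : ((2 * h : ℕ) : ℤ) ≠ 0 := by push_cast; omega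
  have hmp : (0 : ℤ) < ((2 * h : ℕ) : ℤ) := by push_cast; omega
  obtain ⟨δ, hδ⟩ : ∃ δ : ℤ, δ = ((p.val : ℤ) - q.val) % ((2 * h : ℕ) : ℤ) := ⟨_, rfl⟩
  have hδ0 : 0 ≤ δ := by rw [hδ]; exact Int.emod_nonneg _ hm0
  have hδ1 : δ < ((2 * h : ℕ) : ℤ) := by rw [hδ]; exact Int.emod_lt_of_pos _ hmp
  have hF : ∑ t ∈ range (s + 1), ε t * FF G (cc (2 * h) s L o W i₀ e t) (u, p) (v, q) =
      ∑ a, G.A a u v * (∑ t ∈ range (s + 1), ε t * cc (2 * h) s L o W i₀ e t a p q) -
      ∑ a, G.A a v u * (∑ t ∈ range (s + 1), ε t * cc (2 * h) s L o W i₀ e t a q p) := by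
    simp only [FF_apply, mul_sub, Finset.sum_sub_distrib, Finset.mul_sum]
    congr 1
    · rw [Finset.sum_comm]
      exact Finset.sum_congr rfl fun a _ => Finset.sum_congr rfl fun t _ => by ring
    · rw [Finset.sum_comm]
      exact Finset.sum_congr rfl fun a _ => Finset.sum_congr rfl fun t _ => by ring
  have hz : ∀ p q : Fin (2 * h), (((p.val : ℤ) - q.val) % ((2 * h : ℕ) : ℤ) = 0 ∨
      (h : ℤ) ≤ ((p.val : ℤ) - q.val) % ((2 * h : ℕ) : ℤ)) → ∀ a,
      ∑ t ∈ range (s + 1), ε t * cc (2 * h) s L o W i₀ e t a p q = 0 := by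
    intro p q hpq a
    refine Finset.sum_eq_zero fun t ht => ?_
    rw [mem_range] at ht
    rw [cc_zero ho hh (by omega) a hpq, mul_zero]
  have hT1 : ∀ i < j, TT G j P h i (u, p) (v, q) =
      P i u v * (1 : Matrix (Fin (2 * h)) (Fin (2 * h)) ℤ) p q := by
    intro i hi
    rw [TT_lt hi]; rfl
  have hT2 : TT G j P h j (u, p) (v, q) = G.E u v * Nz (2 * h) h p q := by
    rw [TT_j]; rfl
  rw [hF, Finset.sum_range_succ, hT2,
    Finset.sum_congr rfl fun i hi => by rw [hT1 i (mem_range.1 hi)]]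
  by_cases c0 : δ = 0
  · have hpq : p = q := fin_eq_of_emod (by rw [← hδ, c0])
    subst hpq
    have hzero : ∀ a, ∑ t ∈ range (s + 1), ε t * cc (2 * h) s L o W i₀ e t a p p = 0 :=
      hz p p (Or.inl (by rw [sub_self, Int.zero_emod]))
    have hN : Nz (2 * h) h p p = 0 := Nz_zero (by positivity) (by push_cast; omega)
      (by rw [sub_self, Int.zero_emod]; omega)
    simp only [hzero, hN, mul_zero, Finset.sum_const_zero, sub_self, add_zero, one_apply_eq,
      mul_one]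
    by_cases huv : u = v
    · subst huv
      rw [Finset.sum_eq_zero fun i hi => by rw [hP.P0 i (mem_range.1 hi), mul_zero], one_apply_eq,
        mul_one, add_zero]
      exact hζ
    · obtain ⟨i, hi, h1, h2⟩ := hP.sup u v huv
      rw [one_apply_ne (fun h' => huv (Prod.ext_iff.1 h').1), mul_zero, zero_add,
        Finset.sum_eq_single i]
      · exact (hγ i (by omega)).mul h1
      · intro i' hi' hne
        rw [h2 i' (mem_range.1 hi') hne, mul_zero]
      · intro h'; exact absurd (mem_range.2 hi) h'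
  · have hpq : p ≠ q := fun h' => c0 (by rw [hδ, h', sub_self, Int.zero_emod])
    have hδ' := emod_swap (m := 2 * h) (by omega) (a := p.val) (b := q.val) (by rw [← hδ]; exact c0)
    rw [← hδ] at hδ'
    rw [one_apply_ne (fun h' => hpq (Prod.ext_iff.1 h').2), one_apply_ne hpq]
    simp only [mul_zero, Finset.sum_const_zero, zero_add]
    rcases lt_trichotomy δ h with c1 | c1 | c1
    · -- low
      have h1 : ∀ a, ∑ t ∈ range (s + 1), ε t * cc (2 * h) s L o W i₀ e t a q p = 0 :=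
        hz q p (Or.inr (by rw [hδ']; push_cast; omega))
      have hN : Nz (2 * h) h p q = 0 := Nz_zero (by positivity) (by push_cast; omega)
        (by rw [← hδ]; omega)
      obtain ⟨f, hf1, hf2⟩ := low_value (κ := κ) (e := e) (i₀ := i₀) h0 ho hh hW (d := δ.toNat)
        (by omega) (by omega) ε hε
      have h2 := hf2 p q (by rw [← hδ]; omega)
      simp only [h1, h2, hN, mul_zero, Finset.sum_const_zero, sub_zero, zero_add]
      refine sg_sum G u v _ fun a => (hf1 a).mul (Nz_sg ?_)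
      rw [← hδ]; omega
    · -- middle
      have h1 : ∀ a, ∑ t ∈ range (s + 1), ε t * cc (2 * h) s L o W i₀ e t a q p = 0 :=
        hz q p (Or.inr (by rw [hδ']; push_cast; omega))
      have h2 : ∀ a, ∑ t ∈ range (s + 1), ε t * cc (2 * h) s L o W i₀ e t a p q = 0 :=
        hz p q (Or.inr (by rw [← hδ]; omega))
      simp only [h1, h2, mul_zero, Finset.sum_const_zero, sub_zero, add_zero]
      exact (hγ j le_rfl).mul ((G.Es _ _).mul (Nz_sg (by rw [← hδ, c1])))
    · -- high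
      have h1 : ∀ a, ∑ t ∈ range (s + 1), ε t * cc (2 * h) s L o W i₀ e t a p q = 0 :=
        hz p q (Or.inr (by rw [← hδ]; omega))
      have hN : Nz (2 * h) h p q = 0 := Nz_zero (by positivity) (by push_cast; omega)
        (by rw [← hδ]; omega)
      obtain ⟨f, hf1, hf2⟩ := low_value (κ := κ) (e := e) (i₀ := i₀) h0 ho hh hW
        (d := (((2 * h : ℕ) : ℤ) - δ).toNat) (by omega) (by omega) ε hε
      have h2 := hf2 q p (by rw [hδ']; omega)
      simp only [h1, h2, hN, mul_zero, Finset.sum_const_zero, zero_sub, zero_add]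
      refine Sg.neg (sg_sum G v u _ fun a => (hf1 a).mul (Nz_sg ?_))
      rw [hδ']; omega

end Pool.Agent.Q148.PH
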