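import Pool.Agent.W851.Had.Tower

/-!
# Growth of the tower function
-/

set_option autoImplicit false

namespace Pool.Agent.Q148.PH

open Pool.Agent.W851.Had (tow tow_succ tow_pos tow_zero)

theorem two_pow_le_tow (m : ℕ) : 2 ^ m ≤ tow m := by
  induction m with
  | zero => rw [tow_zero]; norm_num
  | succ m ih =>
    rw [tow_succ]
    refine Nat.pow_le_pow_right (by norm_num) ?_
    exact le_trans (Nat.lt_two_pow_self) ih

theorem lin_le (c m : ℕ) (hm : 2 * c + 8 ≤ m) : c * (m + 7) + 3 ≤ 2 ^ (m + 1) := by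
  induction m, hm using Nat.le_induction with
  | base =>
    have h1 : c + 1 ≤ 2 ^ c := Nat.lt_two_pow_self
    have h2 : (c + 1) * (c + 1) ≤ 2 ^ c * 2 ^ c := Nat.mul_le_mul h1 h1
    have h3 : 2 ^ (2 * c + 8 + 1) = 512 * (2 ^ c * 2 ^ c) := by
      rw [show 2 * c + 8 + 1 = c + c + 9 by ring, pow_add, pow_add]; ring
    rw [h3]
    nlinarith
  | succ m _ ih =>
    rw [pow_succ]
    nlinarith

theorem tow_mono {a b : ℕ} (h : a ≤ b) : tow a ≤ tow b := by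
  induction b, h using Nat.le_induction with
  | base => exact le_rfl
  | succ b _ ih =>
    rw [tow_succ]
    exact ih.trans Nat.lt_two_pow_self.le

theorem tow_big (C : ℕ) (m : ℕ) (hm : 2 * C + 8 ≤ m) : C ^ (m + 7) + 5 ≤ tow (m + 2) := by
  have h1 : C ^ (m + 7) ≤ 2 ^ (C * (m + 7)) := by
    rw [pow_mul]
    exact Nat.pow_le_pow_left Nat.lt_two_pow_self.le _
  have h2 := lin_le C m hm
  have h3 : 2 ^ (C * (m + 7)) + 5 ≤ 2 ^ (C * (m + 7) + 3) := by
    rw [pow_add]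
    have : 1 ≤ 2 ^ (C * (m + 7)) := Nat.one_le_two_pow
    omega
  calc C ^ (m + 7) + 5 ≤ 2 ^ (C * (m + 7)) + 5 := by omega
    _ ≤ 2 ^ (C * (m + 7) + 3) := h3
    _ ≤ 2 ^ (2 ^ (m + 1)) := Nat.pow_le_pow_right (by norm_num) h2
    _ ≤ 2 ^ tow (m + 1) := Nat.pow_le_pow_right (by norm_num) (two_pow_le_tow _)
    _ = tow (m + 2) := (tow_succ _).symm

theorem growth (C : ℕ) : ∃ n₁ : ℕ, ∀ n : ℕ, n₁ ≤ n → ∃ v : ℕ, n ≤ tow v ∧
    ((2 ^ (5 * 2 ^ (C ^ (v + 1) + 1) - 1) : ℕ) : ℝ) ≤ Real.log n := by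
  refine ⟨tow (2 * C + 8 + 7), fun n hn => ?_⟩
  have hex : ∃ v, n ≤ tow v := ⟨n, (Nat.lt_two_pow_self).le.trans (two_pow_le_tow n)⟩
  classical
  let v := Nat.find hex
  have hv : n ≤ tow v := Nat.find_spec hex
  have hv7 : 2 * C + 8 + 7 ≤ v := by
    by_contra h
    push Not at h
    have h1 : tow (v + 1) ≤ tow (2 * C + 8 + 7) := tow_mono h
    have h2 : tow v < tow (v + 1) := by rw [tow_succ]; exact Nat.lt_two_pow_self
    omega
  obtain ⟨m, hm⟩ : ∃ m, v = m + 6 := ⟨v - 6, by omega⟩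
  have hlt : tow (m + 5) < n := by
    have := Nat.find_min hex (m := m + 5) (by change m + 5 < v; omega)
    omega
  refine ⟨v, hv, ?_⟩
  have hb := tow_big C m (by omega)
  rw [hm, show m + 6 + 1 = m + 7 by ring]
  -- `log n ≥ log (2 ^ tow (m + 4)) ≥ tow (m + 4) / 2 = 2 ^ (tow (m + 3) - 1)`
  have h1 : Real.log (tow (m + 5) : ℝ) ≤ Real.log n := by
    apply Real.log_le_log
    · exact_mod_cast tow_pos _
    · exact_mod_cast hlt.le
  rw [tow_succ] at h1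
  push_cast at h1
  rw [Real.log_pow] at h1
  have h2 : (1 / 2 : ℝ) ≤ Real.log 2 := by linarith [Real.log_two_gt_d9]
  have h3 : (tow (m + 4) : ℝ) * (1 / 2) ≤ Real.log n := by
    refine le_trans ?_ h1
    gcongr
  refine le_trans ?_ h3
  have h4 : 2 * 2 ^ (5 * 2 ^ (C ^ (m + 7) + 1) - 1) ≤ tow (m + 4) := by
    rw [tow_succ, ← pow_succ']
    refine Nat.pow_le_pow_right (by norm_num) ?_
    generalize C ^ (m + 7) = T at hb ⊢
    have h6 : 2 ^ (T + 4) ≤ 2 ^ tow (m + 2) := Nat.pow_le_pow_right (by norm_num) (by omega)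
    rw [← tow_succ] at h6
    have h7 : 1 ≤ 2 ^ (T + 1) := Nat.one_le_two_pow
    have h8 : 2 ^ (T + 4) = 8 * 2 ^ (T + 1) := by
      rw [show T + 4 = (T + 1) + 3 by ring, pow_add]; ring
    rw [h8] at h6
    change _ ≤ tow (m + 3) at h6
    generalize 2 ^ (T + 1) = X at h6 h7 ⊢
    omega
  have h5 : (2 : ℝ) * ((2 ^ (5 * 2 ^ (C ^ (m + 7) + 1) - 1) : ℕ) : ℝ) ≤ (tow (m + 4) : ℝ) := by
    exact_mod_cast h4
  linarith

end Pool.Agent.Q148.PH
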