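import Pool.Agent.H343R2.EH.Psi
import Pool.Agent.H343R2.EH.Primes
import Pool.Agent.H442R2.EHI.PntErr

/-!
# Primes in arithmetic progressions to small moduli in short intervals
-/

set_option autoImplicit false

namespace Pool.Agent.Q148.PH

open Finset Filter

/-- one modulus -/
theorem one_mod (U W : ℕ) : ∃ x0 : ℕ, ∀ x q a : ℕ, x0 ≤ x → 1 ≤ q → (q : ℝ) ≤ Real.log x ^ U →
    a < q → a.Coprime q →
    |H343E.piAP x q a - H343E.pi1 x / (Nat.totient q : ℝ)| ≤ x / Real.log x ^ W := by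
  obtain ⟨B, x1, h⟩ := H343E.primes_of W (H343E.unsmoothed (W + 2))
  have e1 := Pool.Agent.H398R2.BV.ev_log 1 (2 * U + B) (1 / 2) (by norm_num)
  obtain ⟨Y, hY⟩ := eventually_atTop.mp (e1.and (eventually_ge_atTop (3 : ℝ)))
  refine ⟨max x1 ⌈Y⌉₊, fun x q a hx hq hqU haq hc => ?_⟩
  have hx1 : x1 ≤ x := (le_max_left _ _).trans hx
  have hxY : Y ≤ (x : ℝ) := (Nat.le_ceil Y).trans (by exact_mod_cast (le_max_right _ _).trans hx)
  obtain ⟨h1, h3⟩ := hY x hxY
  have hx0 : (0 : ℝ) < x := by linarith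
  have hL : 1 < Real.log x := by
    rw [Real.lt_log_iff_exp_lt hx0]
    linarith [Real.exp_one_lt_d9]
  have hL0 : 0 < Real.log x := by linarith
  have key : Real.log x ^ (2 * U + B) ≤ x := by
    have h4 : (x : ℝ) ^ (1 / 2 : ℝ) ≤ x := by
      calc (x : ℝ) ^ (1 / 2 : ℝ) ≤ (x : ℝ) ^ (1 : ℝ) :=
            Real.rpow_le_rpow_of_exponent_le (by linarith) (by norm_num)
        _ = x := Real.rpow_one _
    linarith
  have hq2 : (q : ℝ) ^ 2 * Real.log x ^ B ≤ x := by
    calc (q : ℝ) ^ 2 * Real.log x ^ B ≤ (Real.log x ^ U) ^ 2 * Real.log x ^ B := by gcongr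
      _ = Real.log x ^ (2 * U + B) := by ring
      _ ≤ x := key
  have hq1 : (1 : ℝ) ≤ q := by exact_mod_cast hq
  have hq2' : (q : ℝ) * Real.log x ^ B ≤ x := by
    refine le_trans ?_ hq2
    have : (q : ℝ) ≤ (q : ℝ) ^ 2 := by nlinarith
    gcongr
  have hB0 : 0 < Real.log x ^ B := by positivity
  have hfam : H343E.Fam 1 (fun d => if d = q then {a} else ∅) := by
    refine ⟨fun d b hb => ?_, fun d => ?_⟩
    · by_cases hd : d = q
      · subst hd
        rw [if_pos rfl, mem_singleton] at hb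
        subst hb
        exact ⟨haq, hc⟩
      · rw [if_neg hd] at hb
        exact absurd hb (notMem_empty _)
    · by_cases hd : d = q
      · rw [if_pos hd]; simp
      · rw [if_neg hd]; simp
  have h5 := h x hx1 1 le_rfl q (by rw [le_div_iff₀ hB0]; exact hq2')
    (by rw [one_mul, le_div_iff₀ hB0]; exact hq2) _ hfam
  rw [one_mul] at h5
  refine le_trans ?_ h5
  have h6 := Finset.single_le_sum (f := fun d => ∑ b ∈ (if d = q then ({a} : Finset ℕ) else ∅),
    |H343E.piAP x d b - H343E.pi1 x / (Nat.totient d : ℝ)|) (s := Icc 1 q)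
    (fun d _ => Finset.sum_nonneg fun b _ => abs_nonneg _) (mem_Icc.2 ⟨hq, le_rfl⟩)
  simpa using h6

/-- with the logarithmic sum as main term -/
theorem one_mod' (U W : ℕ) : ∃ x0 : ℕ, ∀ x q a : ℕ, x0 ≤ x → 1 ≤ q → (q : ℝ) ≤ Real.log x ^ U →
    a < q → a.Coprime q →
    |H343E.piAP x q a - Pool.Agent.H442R2.EHI.lis x / (Nat.totient q : ℝ)| ≤
      2 * (x / Real.log x ^ W) := by
  obtain ⟨x1, h1⟩ := one_mod U W
  obtain ⟨C, hC⟩ := Pool.Agent.H442R2.EHI.pnt_err (W + 1)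
  obtain ⟨Y, hY⟩ := eventually_atTop.mp
    (Real.tendsto_log_atTop.eventually (eventually_ge_atTop (max C 1)))
  refine ⟨max x1 (max 2 ⌈Y⌉₊), fun x q a hx hq hqU haq hc => ?_⟩
  have hx1 : x1 ≤ x := (le_max_left _ _).trans hx
  have hx2 : 2 ≤ x := ((le_max_left _ _).trans (le_max_right _ _)).trans hx
  have hxY : Y ≤ (x : ℝ) := (Nat.le_ceil Y).trans
    (by exact_mod_cast ((le_max_right _ _).trans (le_max_right _ _)).trans hx)
  have h2 := hY x hxY
  have hL1 : (1 : ℝ) ≤ Real.log x := (le_max_right _ _).trans h2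
  have hLC : C ≤ Real.log x := (le_max_left _ _).trans h2
  have h3 := h1 x q a hx1 hq hqU haq hc
  have h4 := hC x hx2
  have hφ : (1 : ℝ) ≤ Nat.totient q := by exact_mod_cast Nat.totient_pos.2 hq
  have h5 : |H343E.pi1 x / (Nat.totient q : ℝ) -
      Pool.Agent.H442R2.EHI.lis x / (Nat.totient q : ℝ)| ≤ x / Real.log x ^ W := by
    rw [← sub_div, abs_div, abs_of_pos (by linarith : (0 : ℝ) < Nat.totient q)]
    have h6 : |H343E.pi1 x - Pool.Agent.H442R2.EHI.lis x| ≤ x / Real.log x ^ W := by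
      refine h4.trans ?_
      rw [pow_succ, div_le_div_iff₀ (by positivity) (by positivity)]
      have : (0 : ℝ) ≤ x * Real.log x ^ W := by positivity
      nlinarith
    rw [div_le_iff₀ (by linarith)]
    have h7 : (0 : ℝ) ≤ x / Real.log x ^ W := by positivity
    nlinarith
  have h8 := abs_sub_le (H343E.piAP x q a) (H343E.pi1 x / (Nat.totient q : ℝ))
    (Pool.Agent.H442R2.EHI.lis x / (Nat.totient q : ℝ))
  linarith

theorem lis_diff (x h : ℕ) (hx : 2 ≤ x) :
    (h : ℝ) / Real.log ((x + h : ℕ) : ℝ) ≤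
      Pool.Agent.H442R2.EHI.lis (x + h) - Pool.Agent.H442R2.EHI.lis x := by
  induction h with
  | zero => simp
  | succ h ih =>
    have h0 : (1 : ℝ) < ((x + h : ℕ) : ℝ) := by
      push_cast
      have : (2 : ℝ) ≤ x := by exact_mod_cast hx
      have : (0 : ℝ) ≤ h := Nat.cast_nonneg h
      linarith
    have hl : 0 < Real.log ((x + h : ℕ) : ℝ) := Real.log_pos h0
    have hl2 : Real.log ((x + h : ℕ) : ℝ) ≤ Real.log ((x + (h + 1) : ℕ) : ℝ) :=
      Real.log_le_log (by linarith) (by push_cast; linarith)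
    have h1 : Pool.Agent.H442R2.EHI.lis (x + (h + 1)) = Pool.Agent.H442R2.EHI.lis (x + h) +
        1 / Real.log ((x + (h + 1) : ℕ) : ℝ) := by
      have := Pool.Agent.H442R2.EHI.PntErrAux.lis_succ (x + h) (by omega)
      rw [← add_assoc]; exact this
    have h2 : ((h + 1 : ℕ) : ℝ) / Real.log ((x + (h + 1) : ℕ) : ℝ) =
        h / Real.log ((x + (h + 1) : ℕ) : ℝ) + 1 / Real.log ((x + (h + 1) : ℕ) : ℝ) := by
      push_cast; ring
    have h3 : (h : ℝ) / Real.log ((x + (h + 1) : ℕ) : ℝ) ≤ h / Real.log ((x + h : ℕ) : ℝ) := by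
      apply div_le_div_of_nonneg_left (Nat.cast_nonneg h) hl hl2
    rw [h1, h2]
    linarith

/-- a prime in a progression to a small modulus in a short interval -/
theorem prime_sel (A U : ℕ) : ∃ x0 : ℕ, ∀ x q a : ℕ, x0 ≤ x → 1 ≤ q → (q : ℝ) ≤ Real.log x ^ U →
    a < q → a.Coprime q → ∀ h : ℕ, (x : ℝ) / Real.log x ^ A ≤ h → h ≤ x →
    ∃ p : ℕ, p.Prime ∧ p ≡ a [MOD q] ∧ x < p ∧ p ≤ x + h := by
  obtain ⟨W, hW⟩ : ∃ W, W = A + U + 3 := ⟨_, rfl⟩
  obtain ⟨x1, h1⟩ := one_mod' U W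
  obtain ⟨Y, hY⟩ := eventually_atTop.mp
    (Real.tendsto_log_atTop.eventually (eventually_ge_atTop (100 : ℝ)))
  refine ⟨max x1 (max 2 ⌈Y⌉₊), fun x q a hx hq hqU haq hc h hh hhx => ?_⟩
  have hx1 : x1 ≤ x := (le_max_left _ _).trans hx
  have hx2 : 2 ≤ x := ((le_max_left _ _).trans (le_max_right _ _)).trans hx
  have hxY : Y ≤ (x : ℝ) := (Nat.le_ceil Y).trans
    (by exact_mod_cast ((le_max_right _ _).trans (le_max_right _ _)).trans hx)
  have hL : (100 : ℝ) ≤ Real.log x := hY x hxY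
  have hx0 : (2 : ℝ) ≤ x := by exact_mod_cast hx2
  have hLL : Real.log x ≤ Real.log ((x + h : ℕ) : ℝ) :=
    Real.log_le_log (by linarith) (by push_cast; linarith [Nat.cast_nonneg (α := ℝ) h])
  have hhx' : (h : ℝ) ≤ x := by exact_mod_cast hhx
  have hLL2 : Real.log ((x + h : ℕ) : ℝ) ≤ 2 * Real.log x := by
    have h2 : Real.log ((x + h : ℕ) : ℝ) ≤ Real.log ((x : ℝ) * x) := by
      apply Real.log_le_log (by push_cast; linarith [Nat.cast_nonneg (α := ℝ) h])
      push_cast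
      nlinarith
    rw [Real.log_mul (by linarith) (by linarith)] at h2
    linarith
  by_contra hcon
  push Not at hcon
  have heq : H343E.piAP (x + h) q a = H343E.piAP x q a := by
    unfold H343E.piAP
    congr 2
    ext p
    simp only [mem_filter, mem_Icc]
    constructor
    · rintro ⟨⟨h3, h4⟩, h5, h6⟩
      refine ⟨⟨h3, ?_⟩, h5, h6⟩
      by_contra h7
      have := hcon p h5 h6 (by omega)
      omega
    · rintro ⟨⟨h3, h4⟩, h5, h6⟩
      exact ⟨⟨h3, by omega⟩, h5, h6⟩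
  have e1 := h1 x q a hx1 hq hqU haq hc
  have e2 := h1 (x + h) q a (by omega) hq (hqU.trans (by gcongr)) haq hc
  rw [heq] at e2
  have hL0 : 0 < Real.log x := by linarith
  have e3 : ((x + h : ℕ) : ℝ) / Real.log ((x + h : ℕ) : ℝ) ^ W ≤ 2 * (x / Real.log x ^ W) := by
    calc ((x + h : ℕ) : ℝ) / Real.log ((x + h : ℕ) : ℝ) ^ W ≤ (2 * x) / Real.log x ^ W := by
          apply div_le_div₀ (by positivity) (by push_cast; linarith) (by positivity)
          gcongr
      _ = 2 * (x / Real.log x ^ W) := by ring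
  have hφ0 : (0 : ℝ) < Nat.totient q := by exact_mod_cast Nat.totient_pos.2 hq
  have hφ : (Nat.totient q : ℝ) ≤ Real.log x ^ U :=
    (by exact_mod_cast Nat.totient_le q : (Nat.totient q : ℝ) ≤ q).trans hqU
  have e4 : (Pool.Agent.H442R2.EHI.lis (x + h) - Pool.Agent.H442R2.EHI.lis x) /
      (Nat.totient q : ℝ) ≤ 6 * (x / Real.log x ^ W) := by
    rw [abs_le] at e1 e2
    rw [sub_div]
    linarith [e1.1, e1.2, e2.1, e2.2]
  have e5 := lis_diff x h hx2
  have e6 : (h : ℝ) / (2 * Real.log x) / Real.log x ^ U ≤ 6 * (x / Real.log x ^ W) := by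
    refine le_trans ?_ e4
    have h7 : (h : ℝ) / (2 * Real.log x) ≤ h / Real.log ((x + h : ℕ) : ℝ) :=
      div_le_div_of_nonneg_left (Nat.cast_nonneg h) (by linarith) hLL2
    have h8 := h7.trans e5
    have h9 : (0 : ℝ) ≤ h / (2 * Real.log x) := by positivity
    calc (h : ℝ) / (2 * Real.log x) / Real.log x ^ U ≤ (h : ℝ) / (2 * Real.log x) / Nat.totient q :=
          div_le_div_of_nonneg_left h9 hφ0 hφ
      _ ≤ _ := by gcongr
  have e7 : (x : ℝ) / Real.log x ^ A / (2 * Real.log x) / Real.log x ^ U ≤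
      6 * (x / Real.log x ^ W) := by
    refine le_trans ?_ e6
    gcongr
  have e8 : (x : ℝ) / Real.log x ^ A / (2 * Real.log x) / Real.log x ^ U =
      (Real.log x ^ 2 / 2) * (x / Real.log x ^ W) := by
    rw [hW]
    field_simp
    ring
  rw [e8] at e7
  have h10 : 0 < (x : ℝ) / Real.log x ^ W := by positivity
  nlinarith [le_of_mul_le_mul_right e7 h10]

end Pool.Agent.Q148.PH
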