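import Pool.Agent.Q148.PH.Par
import Pool.Agent.Q148.PH.Pr
import Pool.Agent.Q148.PH.Gro
import Pool.Agent.W69.HH.Paley
import Pool.Agent.H108R3.Had.Main

/-!
# Almost complete partial Hadamard matrices
-/

set_option autoImplicit false

namespace Pool.Agent.Q148.PH

open Matrix Finset Filter
open Pool.Agent.H108R3.Had (HasHad PUk)
open Pool.Agent.W851.Had (tow)

theorem puk_one (k : ℕ) : PUk k 1 := by
  induction k with
  | zero => exact Pool.Agent.H108R3.Had.t_P2.2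
  | succ k ih => exact Pool.Agent.H108R3.Had.lift k 1 ih

theorem had_two_pow (k : ℕ) : HasHad (2 ^ k) := by
  have := Pool.Agent.H108R3.Had.t_P7 k 1 (puk_one k)
  rwa [mul_one] at this

/-- the construction with all parameters -/
theorem core {k N l s n p : ℕ} (hN : N = 2 ^ (5 * 2 ^ (k + 1) - 1)) (hs : s = 2 ^ (l + 1))
    (hp : p.Prime) (h4 : 4 ∣ n) (hpn : p + 1 ≤ n) (hmod : 2 * N * s ∣ n - (p + 1))
    (hPU : ∀ q ≤ n, PUk k q) (h1 : n ≤ (s + 1) * (p + 1)) (h2 : s * (p + 1) + 2 * N * s ^ 4 ≤ n) :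
    HasPH (n - (p + 1)) n := by
  have hs2 : 2 ≤ s := by
    rw [hs, pow_succ]
    have : 1 ≤ 2 ^ l := Nat.one_le_two_pow
    omega
  have hseven : 2 ∣ s := by rw [hs, pow_succ]; exact Dvd.intro_left _ rfl
  have hN0 : 0 < N := by rw [hN]; positivity
  obtain ⟨M, hM⟩ := hmod
  obtain ⟨Q, hQ⟩ : ∃ Q, Q = 2 * N * s ^ 2 := ⟨_, rfl⟩
  have hQ0 : 0 < Q := by rw [hQ]; positivity
  obtain ⟨β, hβ⟩ : ∃ β, β = n / Q := ⟨_, rfl⟩
  have h4Q : 4 ∣ Q := by
    obtain ⟨t, ht⟩ := hseven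
    exact ⟨2 * N * t ^ 2, by rw [hQ, ht]; ring⟩
  obtain ⟨e, he⟩ : 4 ∣ n % Q := (Nat.dvd_mod_iff h4Q).2 h4
  have hdiv : n = Q * β + 4 * e := by
    rw [hβ, ← he]; exact (Nat.div_add_mod n Q).symm
  have heQ : 4 * e < Q := by rw [← he]; exact Nat.mod_lt _ hQ0
  obtain ⟨y, hy⟩ : ∃ y, y = e / (2 * N) := ⟨_, rfl⟩
  obtain ⟨e₀, he₀⟩ : ∃ e₀, e₀ = e % (2 * N) := ⟨_, rfl⟩
  have hedec : e = e₀ + 2 * N * y := by
    rw [he₀, hy]; exact (Nat.mod_add_div _ _).symm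
  have he₀N : e₀ < 2 * N := by rw [he₀]; exact Nat.mod_lt _ (by omega)
  have hyb : 4 * y < s ^ 2 := by
    have h5 : 2 * N * (4 * y) < 2 * N * s ^ 2 := by
      calc 2 * N * (4 * y) ≤ 4 * e := by rw [hedec]; nlinarith
        _ < Q := heQ
        _ = 2 * N * s ^ 2 := hQ
    exact lt_of_mul_lt_mul_left h5 (Nat.zero_le _)
  have hMlow : (s - 1) * β + y + 1 ≤ M := by
    have h5 : s * (n - (p + 1)) = 2 * N * s ^ 2 * M := by rw [hM]; ring
    have h6 : s * (n - (p + 1)) = s * n - s * (p + 1) := Nat.mul_sub _ _ _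
    have h7 : (s - 1) * n + 2 * N * s ^ 4 ≤ s * (n - (p + 1)) := by
      rw [h6, Nat.sub_mul, one_mul]
      have : n ≤ s * n := Nat.le_mul_of_pos_left n (by omega)
      omega
    have h8 : (s - 1) * (Q * β) ≤ (s - 1) * n := Nat.mul_le_mul_left _ (by omega)
    have h9 : 2 * N * s ^ 2 * ((s - 1) * β + s ^ 2) ≤ 2 * N * s ^ 2 * M := by
      rw [← h5]
      refine le_trans ?_ h7
      have e1 : 2 * N * s ^ 2 * ((s - 1) * β + s ^ 2) = (s - 1) * (Q * β) + 2 * N * s ^ 4 := by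
        rw [hQ]; ring
      rw [e1]
      omega
    have h10 := le_of_mul_le_mul_left h9 (by positivity)
    have h11 : y + 1 ≤ s ^ 2 := by nlinarith
    omega
  obtain ⟨x₀, hx₀⟩ : ∃ x₀, M = x₀ + (s - 1) * β + y + 1 := ⟨M - ((s - 1) * β + y + 1), by omega⟩
  have hMn : M ≤ n := by
    have : 1 * M ≤ 2 * N * s * M := Nat.mul_le_mul_right _ (by nlinarith)
    omega
  have hβn : β ≤ n := by rw [hβ]; exact Nat.div_le_self _ _
  obtain ⟨ν, i1, i2, S, E, hcard, hS⟩ := exists_sys k N hN s x₀ β y e₀ (by omega) he₀N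
    (hPU x₀ (by omega)) (hPU β hβn) (hPU y (by omega))
  rw [← hx₀] at hcard
  have hsc : s * Fintype.card ν = n - (p + 1) := by rw [hcard, hM]; ring
  obtain ⟨H, hH⟩ := exists_nhad (s := s) (by omega) (by rw [hs]; exact had_two_pow (l + 1))
  have hpal : HasPH (p + 1) (p + 1) := by
    have : Fact p.Prime := ⟨hp⟩
    have h43 : p % 4 = 3 := by
      have h5 : 4 ∣ 2 * N * s * M := by
        obtain ⟨t, ht⟩ := hseven
        exact ⟨N * t * M, by rw [ht]; ring⟩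
      rw [← hM] at h5
      omega
    exact Pool.Agent.W69.HH.paley h43
  have hkey := build hH S E hS (by omega) (n := n) (n₂ := p + 1) ?_ ?_ ?_ hpal ?_
  · rwa [hsc] at hkey
  · have h5 : (n : ℤ) = (Q : ℤ) * β + 4 * e := by exact_mod_cast hdiv
    rw [h5, hQ, hedec]
    push_cast
    ring
  · have h5 : (n : ℤ) = (Q : ℤ) * β + 4 * e := by exact_mod_cast hdiv
    have h6 : (n : ℤ) - (p + 1) = 2 * N * s * M := by
      have : ((n - (p + 1) : ℕ) : ℤ) = ((2 * N * s * M : ℕ) : ℤ) := by rw [hM]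
      rw [Nat.cast_sub hpn] at this
      push_cast at this
      exact this
    have h7 : (M : ℤ) = x₀ + (s - 1) * β + y + 1 := by
      have : (M : ℤ) = ((x₀ + (s - 1) * β + y + 1 : ℕ) : ℤ) := by rw [hx₀]
      rw [this]
      push_cast [Nat.cast_sub (show 1 ≤ s by omega)]
      ring
    have h8 : (e : ℤ) = e₀ + 2 * N * y := by exact_mod_cast hedec
    rw [hQ, h8] at h5
    rw [h7] at h6
    push_cast at h5 ⊢
    linear_combination h5 - h6
  · rw [hsc]; omega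
  · have h6 : (s + 1) * (p + 1) = s * (p + 1) + (p + 1) := by ring
    have h5 : s * Fintype.card ν ≤ s * (p + 1) := by rw [hsc]; omega
    exact le_of_mul_le_mul_left h5 (by omega)

/-- for every `A` and all large `n` divisible by four there are at least `n - n / (log n) ^ A`
mutually orthogonal `±1` vectors of length `n` -/
theorem main (A : ℕ) : ∃ n₀ : ℕ, ∀ n : ℕ, n₀ ≤ n → 4 ∣ n →
    ∃ r : ℕ, (n : ℝ) - n / Real.log n ^ A ≤ r ∧ HasPH r n := by
  obtain ⟨C, -, hC⟩ := Pool.Agent.W851.Had.main_pu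
  obtain ⟨n₁, hgr⟩ := growth C
  obtain ⟨x₁, hsel⟩ := prime_sel (2 * A + 1) (A + 2)
  have ev1 := Pool.Agent.H398R2.BV.ev_log 100000 (5 * A + 3) (1 / 2) (by norm_num)
  have ev2 : ∀ᶠ X : ℝ in atTop, (256 * 2 ^ (2 * A + 2) : ℝ) ≤ Real.log X :=
    Real.tendsto_log_atTop.eventually (eventually_ge_atTop _)
  have ev3 : ∀ᶠ X : ℝ in atTop, (x₁ : ℝ) ≤ X ^ (1 / 2 : ℝ) :=
    (tendsto_rpow_atTop (by norm_num : (0 : ℝ) < 1 / 2)).eventually (eventually_ge_atTop _)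
  obtain ⟨Y, hY⟩ := eventually_atTop.mp (ev1.and (ev2.and (ev3.and (eventually_ge_atTop (4 : ℝ)))))
  refine ⟨max n₁ ⌈Y⌉₊, fun n hn h4 => ?_⟩
  have hn1 : n₁ ≤ n := (le_max_left _ _).trans hn
  have hnY : Y ≤ (n : ℝ) := (Nat.le_ceil Y).trans (by exact_mod_cast (le_max_right _ _).trans hn)
  obtain ⟨g1, g2, g3, g4⟩ := hY n hnY
  obtain ⟨v, hv, hNL⟩ := hgr n hn1
  obtain ⟨k, hk⟩ : ∃ k, k = C ^ (v + 1) := ⟨_, rfl⟩
  obtain ⟨N, hN⟩ : ∃ N, N = 2 ^ (5 * 2 ^ (k + 1) - 1) := ⟨_, rfl⟩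
  rw [← hk, ← hN] at hNL
  obtain ⟨L, hL⟩ : ∃ L, L = Real.log (n : ℝ) := ⟨_, rfl⟩
  rw [← hL] at g1 g2 hNL ⊢
  have hpw : (1 : ℝ) ≤ 2 ^ (2 * A + 2) := one_le_pow₀ (by norm_num)
  have hL256 : (256 : ℝ) ≤ L := by linarith
  have hL1 : (1 : ℝ) ≤ L := by linarith
  have hL0 : (0 : ℝ) < L := by linarith
  have hLA : (1 : ℝ) ≤ L ^ A := one_le_pow₀ hL1
  -- the number of blocks
  obtain ⟨B, hB⟩ : ∃ B, B = ⌈L ^ A⌉₊ := ⟨_, rfl⟩
  have hB1 : 1 ≤ B := by rw [hB]; exact Nat.one_le_ceil_iff.2 (by linarith)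
  have hB2 : L ^ A ≤ B := by rw [hB]; exact Nat.le_ceil _
  have hB3 : (B : ℝ) ≤ 2 * L ^ A := by
    have := Nat.ceil_lt_add_one (show 0 ≤ L ^ A by positivity)
    rw [← hB] at this
    linarith
  obtain ⟨l, hl⟩ : ∃ l, l = Nat.log 2 B := ⟨_, rfl⟩
  obtain ⟨s, hs⟩ : ∃ s, s = 2 ^ (l + 1) := ⟨_, rfl⟩
  have hs1 : B < s := by rw [hs, hl]; exact Nat.lt_pow_succ_log_self (by norm_num) _
  have hs2 : s ≤ 2 * B := by
    rw [hs, hl, pow_succ, mul_comm]
    exact Nat.mul_le_mul_left _ (Nat.pow_log_le_self 2 (by omega))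
  have hsL : L ^ A ≤ s := hB2.trans (by exact_mod_cast hs1.le)
  have hsU : (s : ℝ) ≤ 4 * L ^ A := by
    have : (s : ℝ) ≤ 2 * B := by exact_mod_cast hs2
    linarith
  have hs3 : 2 ≤ s := by omega
  have hsr : (2 : ℝ) ≤ s := by exact_mod_cast hs3
  have hs0 : (0 : ℝ) < s := by linarith
  have hN0 : 0 < N := by rw [hN]; positivity
  have hN1 : (1 : ℝ) ≤ N := by exact_mod_cast hN0
  have hn0 : (0 : ℝ) < n := by linarith
  have hhalf : (n : ℝ) ^ (1 / 2 : ℝ) * (n : ℝ) ^ (1 / 2 : ℝ) = n := by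
    rw [← Real.rpow_add hn0]; norm_num
  obtain ⟨R, hR⟩ : ∃ R, R = (n : ℝ) ^ (1 / 2 : ℝ) := ⟨_, rfl⟩
  rw [← hR] at g1 g3 hhalf
  have hR1 : 1 ≤ R := by
    have : (1 : ℝ) ≤ 100000 * L ^ (5 * A + 3) := by
      have : (1 : ℝ) ≤ L ^ (5 * A + 3) := one_le_pow₀ hL1
      linarith
    linarith
  have b1 : 12 * (N : ℝ) * (s : ℝ) ^ 5 ≤ n := by
    calc 12 * (N : ℝ) * (s : ℝ) ^ 5 ≤ 12 * L * (4 * L ^ A) ^ 5 := by gcongr
      _ = 12288 * L ^ (5 * A + 1) := by ring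
      _ ≤ 100000 * L ^ (5 * A + 3) := by
          have h1 : L ^ (5 * A + 1) ≤ L ^ (5 * A + 3) := pow_le_pow_right₀ hL1 (by omega)
          have h2 : 0 ≤ L ^ (5 * A + 1) := by positivity
          linarith
      _ ≤ R := g1
      _ ≤ n := by nlinarith
  have b2 : ((s : ℝ) + 1) * (R + 1) ≤ n := by
    have h1 : (s : ℝ) + 1 ≤ 8 * L ^ A := by linarith
    have h2 : 16 * L ^ A ≤ R := by
      refine le_trans ?_ g1
      have h3 : L ^ A ≤ L ^ (5 * A + 3) := pow_le_pow_right₀ hL1 (by omega)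
      have h4 : 0 ≤ L ^ A := by positivity
      linarith
    nlinarith
  obtain ⟨x, hx⟩ : ∃ x, x = n / (s + 1) := ⟨_, rfl⟩
  have hxlow : R ≤ x := by
    have h1 : n < (s + 1) * (x + 1) := by
      rw [hx]; exact Nat.lt_mul_div_succ n (by omega)
    have h2 : (n : ℝ) < ((s : ℝ) + 1) * (x + 1) := by exact_mod_cast h1
    have h3 := b2.trans_lt h2
    have h4 := lt_of_mul_lt_mul_left h3 (by positivity)
    linarith
  have hxn : x ≤ n := by rw [hx]; exact Nat.div_le_self _ _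
  have hxnr : (x : ℝ) ≤ n := by exact_mod_cast hxn
  have hx0 : (0 : ℝ) < x := by linarith
  have hlogx : L / 2 ≤ Real.log x := by
    have h1 : Real.log R ≤ Real.log x := Real.log_le_log (by linarith) hxlow
    have h2 : Real.log R = L / 2 := by
      rw [hR, Real.log_rpow hn0, hL]; ring
    linarith
  have hpw2 : (2 : ℝ) ^ (A + 2) ≤ 2 ^ (2 * A + 2) := pow_le_pow_right₀ (by norm_num) (by omega)
  have b3 : ((2 * N * s : ℕ) : ℝ) ≤ Real.log x ^ (A + 2) := by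
    calc ((2 * N * s : ℕ) : ℝ) = 2 * N * s := by push_cast; ring
      _ ≤ 2 * L * (4 * L ^ A) := by gcongr
      _ = 8 * L ^ (A + 1) := by ring
      _ ≤ (L / 2) ^ (A + 2) := by
          rw [div_pow, le_div_iff₀ (by positivity)]
          have h1 : L ^ (A + 2) = L ^ (A + 1) * L := pow_succ _ _
          rw [h1]
          have h2 : 0 ≤ L ^ (A + 1) := by positivity
          have h3 : 8 * 2 ^ (A + 2) ≤ L := by linarith
          calc 8 * L ^ (A + 1) * 2 ^ (A + 2) = L ^ (A + 1) * (8 * 2 ^ (A + 2)) := by ring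
            _ ≤ L ^ (A + 1) * L := by gcongr
      _ ≤ _ := by gcongr
  obtain ⟨h, hh⟩ : ∃ h, h = n / (4 * s ^ 2) := ⟨_, rfl⟩
  have b4 : (x : ℝ) / Real.log x ^ (2 * A + 1) ≤ h := by
    have h1 : n < 4 * s ^ 2 * (h + 1) := by
      have hsn : 0 < s := by omega
      rw [hh]; exact Nat.lt_mul_div_succ n (Nat.mul_pos (by norm_num) (Nat.pow_pos hsn))
    have h2 : (n : ℝ) < 4 * (s : ℝ) ^ 2 * (h + 1) := by exact_mod_cast h1
    have h3 : 8 * (s : ℝ) ^ 2 ≤ n := by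
      refine le_trans ?_ b1
      have h5 : (s : ℝ) ^ 2 ≤ (s : ℝ) ^ 5 := pow_le_pow_right₀ (by linarith) (by norm_num)
      have h6 : 0 ≤ (s : ℝ) ^ 2 := by positivity
      nlinarith
    have h5 : (n : ℝ) ≤ 8 * (s : ℝ) ^ 2 * h := by nlinarith
    have h6 : (n : ℝ) ≤ 128 * L ^ (2 * A) * h := by
      refine h5.trans ?_
      calc 8 * (s : ℝ) ^ 2 * h ≤ 8 * (4 * L ^ A) ^ 2 * h := by gcongr
        _ = 128 * L ^ (2 * A) * h := by ring
    have h7 : 128 * L ^ (2 * A) ≤ (L / 2) ^ (2 * A + 1) := by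
      rw [div_pow, le_div_iff₀ (by positivity), pow_succ L]
      have h8 : 128 * 2 ^ (2 * A + 1) ≤ L := by
        have : (2 : ℝ) ^ (2 * A + 2) = 2 * 2 ^ (2 * A + 1) := by ring
        rw [this] at g2
        have : (0 : ℝ) < 2 ^ (2 * A + 1) := by positivity
        linarith
      calc 128 * L ^ (2 * A) * 2 ^ (2 * A + 1) = L ^ (2 * A) * (128 * 2 ^ (2 * A + 1)) := by ring
        _ ≤ L ^ (2 * A) * L := by gcongr
    have h9 : (L / 2) ^ (2 * A + 1) ≤ Real.log x ^ (2 * A + 1) := by gcongr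
    have hlx : 0 < Real.log x := by linarith
    rw [div_le_iff₀ (by positivity)]
    calc (x : ℝ) ≤ n := hxnr
      _ ≤ 128 * L ^ (2 * A) * h := h6
      _ ≤ Real.log x ^ (2 * A + 1) * h := by
          apply mul_le_mul_of_nonneg_right (h7.trans h9) (Nat.cast_nonneg h)
      _ = h * Real.log x ^ (2 * A + 1) := by ring
  have b5 : h ≤ x := by
    rw [hh, hx]
    exact Nat.div_le_div_left (by nlinarith) (by omega)
  have hx1 : x₁ ≤ x := by
    have : (x₁ : ℝ) ≤ x := g3.trans hxlow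
    exact_mod_cast this
  have heven : 2 ∣ 2 * N * s := ⟨N * s, by ring⟩
  have hq0 : 0 < 2 * N * s := Nat.mul_pos (by omega) (by omega)
  obtain ⟨p, hp, hpmod, hp1, hp2⟩ := hsel x (2 * N * s) ((n - 1) % (2 * N * s)) hx1 hq0 b3
    (Nat.mod_lt _ hq0) (by
      have hodd : ((n - 1) % (2 * N * s)) % 2 = 1 := by
        rw [Nat.mod_mod_of_dvd _ heven]
        have : 4 ≤ n := by exact_mod_cast g4
        omega
      have hcop : Nat.Coprime ((n - 1) % (2 * N * s)) 2 := by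
        rw [Nat.coprime_two_right]
        exact Nat.odd_iff.2 hodd
      rw [hN, hs]
      rw [hN, hs] at hcop
      exact Nat.Coprime.mul_right (Nat.Coprime.mul_right hcop (hcop.pow_right _)) (hcop.pow_right _))
    h b4 b5
  have hsp : (s : ℝ) * (p + 1) + 2 * N * (s : ℝ) ^ 4 ≤ n := by
    have h1 : (p : ℝ) ≤ x + h := by exact_mod_cast hp2
    have h2 : ((s : ℝ) + 1) * x ≤ n := by
      have : (s + 1) * x ≤ n := by rw [hx]; exact Nat.mul_div_le _ _
      exact_mod_cast this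
    have h3 : 4 * (s : ℝ) ^ 2 * h ≤ n := by
      have : 4 * s ^ 2 * h ≤ n := by rw [hh]; exact Nat.mul_div_le _ _
      exact_mod_cast this
    -- multiply by `4 s (s + 1)`
    have h5 : (s : ℝ) * (p + 1) ≤ s * x + s * h + s := by nlinarith
    have h6 : (x : ℝ) ≤ n / (s + 1) := by
      rw [le_div_iff₀ (by linarith)]; linarith
    have h7 : (h : ℝ) ≤ n / (4 * s ^ 2) := by
      rw [le_div_iff₀ (by positivity)]; linarith
    have h8 : (s : ℝ) * x + s * h + s + 2 * N * (s : ℝ) ^ 4 ≤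
        s * (n / (s + 1)) + s * (n / (4 * s ^ 2)) + n / (4 * s) := by
      have h9 : (s : ℝ) + 2 * N * (s : ℝ) ^ 4 ≤ n / (4 * s) := by
        rw [le_div_iff₀ (by positivity)]
        have h10 : (s : ℝ) ^ 2 ≤ (s : ℝ) ^ 5 := pow_le_pow_right₀ (by linarith) (by norm_num)
        have h11 : 0 ≤ (s : ℝ) ^ 5 := by positivity
        calc ((s : ℝ) + 2 * N * (s : ℝ) ^ 4) * (4 * s) = 4 * (s : ℝ) ^ 2 + 8 * N * (s : ℝ) ^ 5 := by ring
          _ ≤ 12 * N * (s : ℝ) ^ 5 := by nlinarith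
          _ ≤ n := b1
      have h12 := mul_le_mul_of_nonneg_left h6 hs0.le
      have h13 := mul_le_mul_of_nonneg_left h7 hs0.le
      linarith
    have h9 : (s : ℝ) * (n / (s + 1)) + s * (n / (4 * s ^ 2)) + n / (4 * s) ≤ n := by
      have e1 : (s : ℝ) * (n / (s + 1)) = n - n / (s + 1) := by field_simp; ring
      have e2 : (s : ℝ) * (n / (4 * s ^ 2)) = n / (4 * s) := by field_simp
      have e3 : n / (2 * (s : ℝ)) ≤ n / (s + 1) :=
        div_le_div_of_nonneg_left hn0.le (by linarith) (by linarith)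
      have e4 : n / (4 * (s : ℝ)) + n / (4 * s) = n / (2 * s) := by field_simp; ring
      rw [e1, e2]
      linarith
    linarith
  have hspn : s * (p + 1) + 2 * N * s ^ 4 ≤ n := by exact_mod_cast hsp
  have hpn : p + 1 ≤ n := by
    have : 1 * (p + 1) ≤ s * (p + 1) := Nat.mul_le_mul_right _ (by omega)
    omega
  have hmod : 2 * N * s ∣ n - (p + 1) := by
    have h1 : p ≡ n - 1 [MOD 2 * N * s] := hpmod.trans (Nat.mod_modEq _ _)
    have h2 := (Nat.modEq_iff_dvd' (by omega)).1 h1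
    rwa [show n - 1 - p = n - (p + 1) by omega] at h2
  have hlow : n ≤ (s + 1) * (p + 1) := by
    have h1 : n < (s + 1) * (x + 1) := by
      rw [hx]; exact Nat.lt_mul_div_succ n (by omega)
    have h2 : (s + 1) * (x + 1) ≤ (s + 1) * (p + 1) := Nat.mul_le_mul_left _ (by omega)
    omega
  refine ⟨n - (p + 1), ?_, core hN hs hp h4 hpn hmod (fun q hq => hC v q k (hq.trans hv) hk.ge)
    hlow hspn⟩
  rw [Nat.cast_sub hpn]
  have h1 : ((p + 1 : ℕ) : ℝ) ≤ n / L ^ A := by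
    rw [le_div_iff₀ (by positivity)]
    push_cast
    have h2 : 0 ≤ 2 * N * (s : ℝ) ^ 4 := by positivity
    have h3 : (0 : ℝ) ≤ (p : ℝ) + 1 := by positivity
    nlinarith
  linarith

end Pool.Agent.Q148.PH
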