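import Pool.Agent.Q148.PH.Wei

/-!
# Partial Hadamard matrices from systems of weighing matrices
-/

set_option autoImplicit false
set_option linter.unusedSectionVars false

namespace Pool.Agent.Q148.PH

open Matrix Finset
open scoped Kronecker
open Pool.Agent.Y342.SK (Sg)
open Pool.Agent.H108R3.Had (HasHad)

/-- `r` mutually orthogonal `±1` vectors of length `n` -/
def HasPH (r n : ℕ) : Prop := ∃ M : Matrix (Fin r) (Fin n) ℤ, (∀ i j, M i j = 1 ∨ M i j = -1) ∧
  M * Mᵀ = (n : ℤ) • (1 : Matrix (Fin r) (Fin r) ℤ)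

theorem hasPH_of {α β : Type} [Fintype α] [DecidableEq α] [Fintype β] (M : Matrix α β ℤ)
    (h1 : ∀ i j, M i j = 1 ∨ M i j = -1) (r n : ℕ) (hr : r ≤ Fintype.card α)
    (hn : Fintype.card β = n) (h2 : M * Mᵀ = (n : ℤ) • (1 : Matrix α α ℤ)) : HasPH r n := by
  obtain ⟨f⟩ : Nonempty (Fin r ↪ α) := Function.Embedding.nonempty_of_card_le (by simpa using hr)
  let g : Fin n ≃ β := (Fintype.equivFinOfCardEq hn).symm
  refine ⟨M.submatrix f g, fun i j => h1 _ _, ?_⟩
  ext i j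
  have h3 := congrFun (congrFun h2 (f i)) (f j)
  rw [Matrix.mul_apply] at h3 ⊢
  simp only [Matrix.transpose_apply, Matrix.submatrix_apply, Matrix.smul_apply,
    Matrix.one_apply] at h3 ⊢
  rw [Equiv.sum_comp g (fun b => M (f i) b * M (f j) b), h3]
  by_cases hij : i = j
  · rw [if_pos hij, if_pos (congrArg f hij)]
  · rw [if_neg hij, if_neg (fun h => hij (f.injective h))]

theorem HasPH.mono {r r' n : ℕ} (h : HasPH r n) (hr : r' ≤ r) : HasPH r' n := by
  obtain ⟨M, h1, h2⟩ := h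
  exact hasPH_of M h1 r' n (by simpa using hr) (by simp) h2

/-- rows of a partial Hadamard matrix indexed by a type -/
theorem HasPH.rows {r n : ℕ} (h : HasPH r n) {α : Type} [Fintype α] [DecidableEq α]
    (hr : Fintype.card α ≤ r) : ∃ K : Matrix α (Fin n) ℤ, (∀ i j, Sg (K i j)) ∧
      K * Kᵀ = (n : ℤ) • (1 : Matrix α α ℤ) := by
  obtain ⟨M, h1, h2⟩ := h
  obtain ⟨f⟩ : Nonempty (α ↪ Fin r) := Function.Embedding.nonempty_of_card_le (by simpa using hr)
  refine ⟨M.submatrix f id, fun i j => h1 _ _, ?_⟩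
  ext i j
  have h3 := congrFun (congrFun h2 (f i)) (f j)
  rw [Matrix.mul_apply] at h3 ⊢
  simp only [Matrix.transpose_apply, Matrix.submatrix_apply, Matrix.smul_apply,
    Matrix.one_apply, id] at h3 ⊢
  rw [h3]
  by_cases hij : i = j
  · rw [if_pos hij, if_pos (congrArg f hij)]
  · rw [if_neg hij, if_neg (fun h => hij (f.injective h))]

/-- a normalized Hadamard matrix -/
structure NHad (s : ℕ) (H : Matrix (Fin s) (Fin s) ℤ) : Prop where
  sg : ∀ i j, Sg (H i j)
  row : ∀ t t', ∑ u, H t u * H t' u = if t = t' then (s : ℤ) else 0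
  col : ∀ u v, ∑ t, H t u * H t v = if u = v then (s : ℤ) else 0
  zero : ∀ t : Fin s, t.val = 0 → ∀ u, H t u = 1

theorem exists_nhad {s : ℕ} (hs : 0 < s) (h : HasHad s) : ∃ H, NHad s H := by
  obtain ⟨H, h1, h2⟩ := h
  have hrow : ∀ t t', ∑ u, H t u * H t' u = if t = t' then (s : ℤ) else 0 := by
    intro t t'
    have := congrFun (congrFun h2 t) t'
    rw [Matrix.mul_apply, Matrix.smul_apply, Matrix.one_apply] at this
    simp only [Matrix.transpose_apply, smul_eq_mul, mul_ite, mul_one, mul_zero] at this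
    exact this
  have hcol : ∀ u v, ∑ t, H t u * H t v = if u = v then (s : ℤ) else 0 := by
    have hs0 : (s : ℚ) ≠ 0 := by exact_mod_cast hs.ne'
    let Hq : Matrix (Fin s) (Fin s) ℚ := H.map (Int.castRingHom ℚ)
    have h3 : Hq * ((1 / (s : ℚ)) • Hqᵀ) = 1 := by
      rw [Matrix.mul_smul]
      have : Hq * Hqᵀ = (s : ℚ) • 1 := by
        have h4 := congrArg (fun M : Matrix (Fin s) (Fin s) ℤ => M.map (Int.castRingHom ℚ)) h2
        simp only [Matrix.map_mul] at h4
        change Hq * Hqᵀ = _ at h4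
        rw [h4]
        ext i j
        simp only [Matrix.map_apply, Matrix.smul_apply, Matrix.one_apply]
        split_ifs <;> simp
      rw [this, smul_smul, one_div, inv_mul_cancel₀ hs0, one_smul]
    have h4 := mul_eq_one_comm.1 h3
    intro u v
    have h5 := congrFun (congrFun h4 u) v
    rw [Matrix.smul_mul, Matrix.smul_apply, Matrix.mul_apply, Matrix.one_apply] at h5
    have h6 : ((∑ t, H t u * H t v : ℤ) : ℚ) = ∑ t, Hqᵀ u t * Hq t v := by
      push_cast
      rfl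
    rw [← h6] at h5
    have h7 : ((∑ t, H t u * H t v : ℤ) : ℚ) = ((if u = v then (s : ℤ) else 0 : ℤ) : ℚ) := by
      rw [smul_eq_mul, one_div, inv_mul_eq_iff_eq_mul₀ hs0] at h5
      rw [h5]
      split_ifs <;> simp
    exact_mod_cast h7
  have hz : ∀ u, H ⟨0, hs⟩ u * H ⟨0, hs⟩ u = 1 := by
    intro u
    rcases h1 ⟨0, hs⟩ u with h | h <;> rw [h] <;> norm_num
  refine ⟨Matrix.of fun t u => H t u * H ⟨0, hs⟩ u, ⟨fun i j => ?_, fun t t' => ?_,
    fun u v => ?_, fun t ht u => ?_⟩⟩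
  · exact Pool.Agent.Y342.SK.Sg.mul (h1 i j) (h1 _ _)
  · rw [← hrow]
    refine Finset.sum_congr rfl fun u _ => ?_
    rw [Matrix.of_apply, Matrix.of_apply]
    linear_combination (H t u * H t' u) * hz u
  · have h3 : ∀ t, H t u * H ⟨0, hs⟩ u * (H t v * H ⟨0, hs⟩ v) =
        (H ⟨0, hs⟩ u * H ⟨0, hs⟩ v) * (H t u * H t v) := fun t => by ring
    simp only [Matrix.of_apply]
    rw [Finset.sum_congr rfl fun t _ => h3 t, ← Finset.mul_sum, hcol]
    by_cases huv : u = v
    · subst huv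
      rw [if_pos rfl, hz, one_mul]
    · rw [if_neg huv, mul_zero]
  · have : t = ⟨0, hs⟩ := Fin.ext ht
    subst this
    exact hz u

section comb

variable {ν : Type} [Fintype ν] [DecidableEq ν] {s : ℕ} {H : Matrix (Fin s) (Fin s) ℤ}
  (hH : NHad s H)

/-- the rank one matrices -/
def RR (H : Matrix (Fin s) (Fin s) ℤ) (t : Fin s) : Matrix (Fin s) (Fin s) ℤ :=
  Matrix.of fun u v => H t u * H t v

theorem RR_T (t : Fin s) : (RR H t)ᵀ = RR H t := by
  ext u v
  change H t v * H t u = H t u * H t v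
  ring

include hH in
theorem RR_mul (t t' : Fin s) : RR H t * RR H t' = if t = t' then (s : ℤ) • RR H t else 0 := by
  ext u v
  rw [Matrix.mul_apply]
  have h3 : ∀ w, RR H t u w * RR H t' w v = (H t u * H t' v) * (H t w * H t' w) := by
    intro w
    change H t u * H t w * (H t' w * H t' v) = _
    ring
  rw [Finset.sum_congr rfl fun w _ => h3 w, ← Finset.mul_sum, hH.row]
  by_cases h : t = t'
  · subst h
    rw [if_pos rfl, if_pos rfl, Matrix.smul_apply, smul_eq_mul]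
    change _ = (s : ℤ) * (H t u * H t v)
    ring
  · rw [if_neg h, if_neg h, mul_zero]; rfl

include hH in
theorem RR_sum : ∑ t, RR H t = (s : ℤ) • (1 : Matrix (Fin s) (Fin s) ℤ) := by
  ext u v
  rw [Matrix.sum_apply, Matrix.smul_apply, Matrix.one_apply]
  change ∑ t, H t u * H t v = _
  rw [hH.col]
  by_cases h : u = v
  · rw [if_pos h, if_pos h]; simp
  · rw [if_neg h, if_neg h]; simp

variable (S : ℕ → Matrix ν ν ℤ) (E : Matrix ν ν ℤ)

/-- the matrix `J - 2 I` -/
def BB (H : Matrix (Fin s) (Fin s) ℤ) (z : Fin s) : Matrix (Fin s) (Fin s) ℤ :=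
  RR H z - (2 : ℤ) • 1

/-- the combination -/
def XX (H : Matrix (Fin s) (Fin s) ℤ) (z : Fin s) : Matrix (Fin s × ν) (Fin s × ν) ℤ :=
  ∑ t : Fin s, RR H t ⊗ₖ S t.val + BB H z ⊗ₖ E

include hH in
theorem BB_RR (z t : Fin s) : BB H z * RR H t = RR H t * BB H z := by
  unfold BB
  rw [sub_mul, mul_sub, RR_mul hH, RR_mul hH, smul_mul_assoc, mul_smul_comm, one_mul, mul_one]
  by_cases h : z = t
  · subst h; rfl
  · rw [if_neg h, if_neg (Ne.symm h)]

theorem BB_T (z : Fin s) : (BB H z)ᵀ = BB H z := by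
  unfold BB
  rw [transpose_sub, RR_T, transpose_smul, transpose_one]

include hH in
theorem BB_BB (z : Fin s) : BB H z * BB H z =
    ((s : ℤ) - 4) • RR H z + (4 : ℤ) • (1 : Matrix (Fin s) (Fin s) ℤ) := by
  have h1 := RR_mul hH z z
  rw [if_pos rfl] at h1
  have e : BB H z * BB H z = RR H z * RR H z - (4 : ℤ) • RR H z + (4 : ℤ) • 1 := by
    unfold BB
    simp only [sub_mul, mul_sub, smul_mul_assoc, mul_smul_comm, one_mul, mul_one, smul_smul,
      smul_sub]
    ext i j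
    simp only [Matrix.sub_apply, Matrix.add_apply, Matrix.smul_apply, smul_eq_mul]
    ring
  rw [e, h1, sub_smul]

include hH in
theorem XX_mul {a b e : ℤ} (hS : Sys s a b e S E) (z : Fin s) (hz : z.val = 0) :
    XX S E H z * (XX S E H z)ᵀ =
      ((s : ℤ) ^ 2 * b + 4 * e) • (1 : Matrix (Fin s × ν) (Fin s × ν) ℤ) +
      (s * a - s * b + (s - 4) * e) • (RR H z ⊗ₖ (1 : Matrix ν ν ℤ)) := by
  have hT : (XX S E H z)ᵀ = ∑ t : Fin s, RR H t ⊗ₖ (S t.val)ᵀ + BB H z ⊗ₖ Eᵀ := by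
    unfold XX
    rw [transpose_add, transpose_sum, ← kroneckerMap_transpose, BB_T]
    congr 1
    exact Finset.sum_congr rfl fun t _ => by rw [← kroneckerMap_transpose, RR_T]
  have h1 : (∑ t : Fin s, RR H t ⊗ₖ S t.val) * (∑ t : Fin s, RR H t ⊗ₖ (S t.val)ᵀ) =
      (s * a - s * b) • (RR H z ⊗ₖ (1 : Matrix ν ν ℤ)) +
        ((s : ℤ) ^ 2 * b) • (1 : Matrix (Fin s × ν) (Fin s × ν) ℤ) := by
    have e1 : (∑ t : Fin s, RR H t ⊗ₖ S t.val) * (∑ t : Fin s, RR H t ⊗ₖ (S t.val)ᵀ) =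
        ∑ t : Fin s, ((s : ℤ) • RR H t) ⊗ₖ (S t.val * (S t.val)ᵀ) := by
      rw [Finset.sum_mul]
      refine Finset.sum_congr rfl fun t _ => ?_
      rw [Finset.mul_sum, Finset.sum_eq_single t]
      · rw [← mul_kronecker_mul, RR_mul hH, if_pos rfl]
      · intro t' _ hne
        rw [← mul_kronecker_mul, RR_mul hH, if_neg (Ne.symm hne), zero_kronecker]
      · intro h; exact absurd (mem_univ _) h
    have e2 : ∀ t : Fin s, ((s : ℤ) • RR H t) ⊗ₖ (S t.val * (S t.val)ᵀ) =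
        (s * b) • (RR H t ⊗ₖ (1 : Matrix ν ν ℤ)) +
          (if t = z then (s * a - s * b) • (RR H z ⊗ₖ (1 : Matrix ν ν ℤ)) else 0) := by
      intro t
      by_cases ht : t = z
      · subst ht
        rw [if_pos rfl, hz, hS.S0, smul_kronecker, kronecker_smul, smul_smul, ← add_smul]
        congr 1
        ring
      · have ht0 : 0 < t.val := by
          rcases Nat.eq_zero_or_pos t.val with h' | h'
          · exact absurd (Fin.ext (by rw [h', hz])) ht
          · exact h'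
        rw [if_neg ht, hS.St t.val ht0 t.isLt, smul_kronecker, kronecker_smul, smul_smul, add_zero]
    have e3 : ∑ t : Fin s, (RR H t ⊗ₖ (1 : Matrix ν ν ℤ)) =
        (s : ℤ) • (1 : Matrix (Fin s × ν) (Fin s × ν) ℤ) := by
      have e4 : ∑ t : Fin s, (RR H t ⊗ₖ (1 : Matrix ν ν ℤ)) =
          (∑ t : Fin s, RR H t) ⊗ₖ (1 : Matrix ν ν ℤ) := by
        ext i j
        simp only [Matrix.sum_apply, kroneckerMap_apply, Finset.sum_mul]
      rw [e4, RR_sum hH, smul_kronecker, one_kronecker_one]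
    rw [e1, Finset.sum_congr rfl fun t _ => e2 t, Finset.sum_add_distrib, ← Finset.smul_sum, e3,
      Finset.sum_ite_eq' univ z, if_pos (mem_univ _), smul_smul, add_comm]
    congr 2
    ring
  have h2 : (∑ t : Fin s, RR H t ⊗ₖ S t.val) * (BB H z ⊗ₖ Eᵀ) +
      (BB H z ⊗ₖ E) * (∑ t : Fin s, RR H t ⊗ₖ (S t.val)ᵀ) = 0 := by
    rw [Finset.sum_mul, Finset.mul_sum, ← Finset.sum_add_distrib]
    refine Finset.sum_eq_zero fun t _ => ?_
    rw [← mul_kronecker_mul, ← mul_kronecker_mul, BB_RR hH, ← kronecker_add, hS.SE t.val t.isLt,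
      kronecker_zero]
  have h3 : (BB H z ⊗ₖ E) * (BB H z ⊗ₖ Eᵀ) = ((s - 4) * e) • (RR H z ⊗ₖ (1 : Matrix ν ν ℤ)) +
      (4 * e) • (1 : Matrix (Fin s × ν) (Fin s × ν) ℤ) := by
    rw [← mul_kronecker_mul, BB_BB hH, hS.EE, kronecker_smul, add_kronecker, smul_kronecker,
      smul_kronecker, one_kronecker_one, smul_add, smul_smul, smul_smul]
    congr 2 <;> ring
  have e : XX S E H z * (XX S E H z)ᵀ =
      (∑ t : Fin s, RR H t ⊗ₖ S t.val) * (∑ t : Fin s, RR H t ⊗ₖ (S t.val)ᵀ) +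
      ((∑ t : Fin s, RR H t ⊗ₖ S t.val) * (BB H z ⊗ₖ Eᵀ) +
      (BB H z ⊗ₖ E) * (∑ t : Fin s, RR H t ⊗ₖ (S t.val)ᵀ)) +
      (BB H z ⊗ₖ E) * (BB H z ⊗ₖ Eᵀ) := by
    rw [hT]
    unfold XX
    rw [add_mul, mul_add, mul_add]
    abel
  rw [e, h1, h2, h3, add_zero]
  ext i j
  simp only [Matrix.add_apply, Matrix.smul_apply, smul_eq_mul]
  ring

include hH in
theorem XX_sg {a b e : ℤ} (hS : Sys s a b e S E) (z : Fin s) (hz : z.val = 0)
    (x y : Fin s × ν) : XX S E H z x y = 1 ∨ XX S E H z x y = -1 := by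
  obtain ⟨u, α⟩ := x
  obtain ⟨v, β⟩ := y
  have h1 : XX S E H z (u, α) (v, β) = ∑ t ∈ range s, (if h : t < s then
      H ⟨t, h⟩ u * H ⟨t, h⟩ v else 1) * S t α β + (if u = v then (-1 : ℤ) else 1) * E α β := by
    unfold XX
    rw [Matrix.add_apply, Matrix.sum_apply]
    simp only [kroneckerMap_apply]
    congr 1
    · rw [← Fin.sum_univ_eq_sum_range (fun t => (if h : t < s then
        H ⟨t, h⟩ u * H ⟨t, h⟩ v else 1) * S t α β)]
      refine Finset.sum_congr rfl fun t _ => ?_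
      rw [dif_pos t.isLt]
      rfl
    · congr 1
      unfold BB
      rw [Matrix.sub_apply, Matrix.smul_apply, Matrix.one_apply]
      have : RR H z u v = 1 := by
        change H z u * H z v = 1
        rw [hH.zero z hz, hH.zero z hz, mul_one]
      rw [this]
      split_ifs <;> norm_num
  rw [h1]
  refine hS.ent _ _ (fun t ht => ?_) ?_ α β
  · simp only [dif_pos ht]
    exact (hH.sg _ _).mul (hH.sg _ _)
  · unfold Pool.Agent.Y342.SK.Sg
    split_ifs <;> simp

include hH in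
/-- the main construction -/
theorem build {a b e : ℤ} (hS : Sys s a b e S E) (hs : 0 < s) {n n₂ : ℕ}
    (hn : (n : ℤ) = s ^ 2 * b + 4 * e) (hn₂ : (n₂ : ℤ) = s * b - s * a - (s - 4) * e)
    (hcard : s * Fintype.card ν + n₂ = n) {r : ℕ} (hr : HasPH r n₂) (hr' : Fintype.card ν ≤ r) :
    HasPH (s * Fintype.card ν) n := by
  obtain ⟨K, hK1, hK2⟩ := hr.rows hr'
  let z : Fin s := ⟨0, hs⟩
  let J : Matrix (Fin s × ν) (Fin n₂) ℤ := Matrix.of fun x c => K x.2 c
  have hJ : J * Jᵀ = (n₂ : ℤ) • (RR H z ⊗ₖ (1 : Matrix ν ν ℤ)) := by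
    ext ⟨u, α⟩ ⟨v, β⟩
    have h3 := congrFun (congrFun hK2 α) β
    rw [Matrix.mul_apply] at h3 ⊢
    rw [Matrix.smul_apply]
    simp only [kroneckerMap_apply]
    have h4 : RR H z u v = 1 := by
      change H z u * H z v = 1
      rw [hH.zero z rfl, hH.zero z rfl, mul_one]
    rw [h4, one_mul]
    exact h3
  refine hasPH_of (Matrix.fromCols (XX S E H z) J) (fun i j => ?_) _ _ (by simp) (by simp [hcard]) ?_
  · rcases j with j | j
    · exact XX_sg hH S E hS z rfl i j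
    · exact hK1 _ _
  · rw [Matrix.transpose_fromCols, Matrix.fromCols_mul_fromRows, XX_mul hH S E hS z rfl, hJ,
      add_assoc, ← add_smul, hn]
    have : s * a - s * b + (s - 4) * e + (n₂ : ℤ) = 0 := by rw [hn₂]; ring
    rw [this, zero_smul, add_zero]

end comb

end Pool.Agent.Q148.PH
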