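import Pool.Agent.Y342.SK.Base

/-!
# Splitting the conference matrix of a gadget into weights `1, 2, 4, 8, …`
-/

set_option autoImplicit false

namespace Pool.Agent.Q148.PH

open Matrix Finset
open scoped Kronecker
open Pool.Agent.Y342.SK

variable {ι κ : Type} [Fintype ι] [DecidableEq ι] [Fintype κ] [DecidableEq κ]

/-- a splitting of the off-diagonal positions into skew weighing matrices of weights `2 ^ i`,
`i < j`, which anticommute with one another and with everything in the gadget -/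
structure Spl (G : Gad ι κ) (j : ℕ) (P : ℕ → Matrix ι ι ℤ) : Prop where
  card : Fintype.card ι = 2 ^ j
  PT : ∀ i < j, (P i)ᵀ = -P i
  sq : ∀ i < j, P i * P i = (-(2 : ℤ) ^ i) • (1 : Matrix ι ι ℤ)
  anti : ∀ i < j, ∀ i' < j, i ≠ i' → Rel (-1) (P i) (P i')
  PA : ∀ i < j, ∀ a, Rel (-1) (P i) (G.A a)
  PE : ∀ i < j, Rel (-1) (P i) G.E
  PY : ∀ i < j, Rel (-1) (P i) G.Y
  P0 : ∀ i < j, ∀ x, P i x x = 0
  sup : ∀ x y, x ≠ y → ∃ i < j, Sg (P i x y) ∧ ∀ i' < j, i' ≠ i → P i' x y = 0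

section step

variable (G : Gad ι κ) (j : ℕ) (P : ℕ → Matrix ι ι ℤ)

/-- the new pieces -/
def stepP (i : ℕ) : Matrix (Fin 2 × (ι × ι)) (Fin 2 × (ι × ι)) ℤ :=
  if i < j then (1 : Matrix (Fin 2) (Fin 2) ℤ) ⊗ₖ ((1 : Matrix ι ι ℤ) ⊗ₖ P i)
  else if i < 2 * j then (1 : Matrix (Fin 2) (Fin 2) ℤ) ⊗ₖ (P (i - j) ⊗ₖ G.Y)
  else ep ⊗ₖ (G.E ⊗ₖ G.E)

theorem stepP_cases (i : ℕ) (hi : i < 2 * j + 1) :
    (i < j ∧ stepP G j P i = (1 : Matrix (Fin 2) (Fin 2) ℤ) ⊗ₖ ((1 : Matrix ι ι ℤ) ⊗ₖ P i)) ∨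
    (∃ i' < j, i = i' + j ∧
      stepP G j P i = (1 : Matrix (Fin 2) (Fin 2) ℤ) ⊗ₖ (P i' ⊗ₖ G.Y)) ∨
    (i = 2 * j ∧ stepP G j P i = ep ⊗ₖ (G.E ⊗ₖ G.E)) := by
  unfold stepP
  by_cases h1 : i < j
  · left; exact ⟨h1, if_pos h1⟩
  · right
    by_cases h2 : i < 2 * j
    · left
      exact ⟨i - j, by omega, by omega, by rw [if_neg h1, if_pos h2]⟩
    · right
      exact ⟨by omega, by rw [if_neg h1, if_neg h2]⟩

variable {G j P} (h : Spl G j P)

include h in
theorem Spl.step : Spl G.step (2 * j + 1) (stepP G j P) := by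
  have r22 : Rel (1 : ℤ) (1 : Matrix (Fin 2) (Fin 2) ℤ) 1 := Rel.refl 1
  have EP : ∀ i < j, Rel (-1) G.E (P i) := fun i hi => (h.PE i hi).symm (by norm_num)
  have YP : ∀ i < j, Rel (-1) G.Y (P i) := fun i hi => (h.PY i hi).symm (by norm_num)
  refine ⟨?_, ?_, ?_, ?_, ?_, ?_, ?_, ?_, ?_⟩
  · rw [Fintype.card_prod, Fintype.card_prod, Fintype.card_fin, h.card]
    ring
  · intro i hi
    rcases stepP_cases G j P i hi with ⟨h1, h2⟩ | ⟨i', h1, -, h2⟩ | ⟨-, h2⟩
    · rw [h2, ← kroneckerMap_transpose, ← kroneckerMap_transpose, transpose_one, transpose_one,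
        h.PT i h1]
      ext a b
      simp only [Matrix.neg_apply, kroneckerMap_apply]
      ring
    · rw [h2, ← kroneckerMap_transpose, ← kroneckerMap_transpose, transpose_one,
        h.PT i' h1, G.YT]
      ext a b
      simp only [Matrix.neg_apply, kroneckerMap_apply]
      ring
    · rw [h2, ← kroneckerMap_transpose, ← kroneckerMap_transpose, epT, G.ET]
      ext a b
      simp only [Matrix.neg_apply, kroneckerMap_apply]
      ring
  · intro i hi
    rcases stepP_cases G j P i hi with ⟨h1, h2⟩ | ⟨i', h1, rfl, h2⟩ | ⟨rfl, h2⟩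
    · rw [h2, ← mul_kronecker_mul, ← mul_kronecker_mul, h.sq i h1, one_mul, one_mul,
        kronecker_smul, kronecker_smul, one_kronecker_one, one_kronecker_one]
    · rw [h2, ← mul_kronecker_mul, ← mul_kronecker_mul, h.sq i' h1, G.YY, one_mul,
        smul_one_kron, kronecker_smul, one_kronecker_one, h.card]
      congr 1
      push_cast
      ring
    · have e1 : (-1 : Matrix (Fin 2) (Fin 2) ℤ) = (-1 : ℤ) • 1 := by simp
      rw [h2, ← mul_kronecker_mul, ← mul_kronecker_mul, G.EE, ep_ep, e1,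
        smul_one_kron, smul_one_kron, h.card]
      congr 1
      push_cast
      ring
  · intro i hi i' hi' hne
    rcases stepP_cases G j P i hi with ⟨h1, h2⟩ | ⟨k, h1, rfl, h2⟩ | ⟨rfl, h2⟩ <;>
    rcases stepP_cases G j P i' hi' with ⟨h3, h4⟩ | ⟨k', h3, rfl, h4⟩ | ⟨rfl, h4⟩ <;>
    (first | exact absurd rfl hne | rw [h2, h4])
    · simpa using r22.kron ((Rel.refl (1 : Matrix ι ι ℤ)).kron (h.anti i h1 i' h3 hne))
    · simpa using r22.kron ((Rel.one_left (P k')).kron (h.PY i h1))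
    · simpa using (Rel.one_left ep).kron ((Rel.one_left G.E).kron (h.PE i h1))
    · simpa using r22.kron ((Rel.one_right (P k)).kron (YP i' h3))
    · simpa using r22.kron ((h.anti k h1 k' h3 (by omega)).kron (Rel.refl G.Y))
    · simpa using (Rel.one_left ep).kron ((h.PE k h1).kron G.YE)
    · simpa using (Rel.one_right ep).kron ((Rel.one_right G.E).kron (EP i' h3))
    · simpa using (Rel.one_right ep).kron ((EP k' h3).kron G.EY)
  · rintro i hi ⟨b, a⟩
    change Rel (-1) _ (G.stepA (b, a))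
    rcases stepP_cases G j P i hi with ⟨h1, h2⟩ | ⟨k, h1, rfl, h2⟩ | ⟨rfl, h2⟩ <;> rw [h2] <;>
    fin_cases b
    · change Rel (-1) _ ((1 : Matrix (Fin 2) (Fin 2) ℤ) ⊗ₖ (G.A a ⊗ₖ G.Y))
      simpa using r22.kron ((Rel.one_left (G.A a)).kron (h.PY i h1))
    · change Rel (-1) _ (ep ⊗ₖ (G.E ⊗ₖ G.A a))
      simpa using (Rel.one_left ep).kron ((Rel.one_left G.E).kron (h.PA i h1 a))
    · change Rel (-1) _ ((1 : Matrix (Fin 2) (Fin 2) ℤ) ⊗ₖ (G.A a ⊗ₖ G.Y))
      simpa using r22.kron ((h.PA k h1 a).kron (Rel.refl G.Y))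
    · change Rel (-1) _ (ep ⊗ₖ (G.E ⊗ₖ G.A a))
      simpa using (Rel.one_left ep).kron ((h.PE k h1).kron (G.YA a))
    · change Rel (-1) _ ((1 : Matrix (Fin 2) (Fin 2) ℤ) ⊗ₖ (G.A a ⊗ₖ G.Y))
      simpa using (Rel.one_right ep).kron ((G.EA a).kron G.EY)
    · change Rel (-1) _ (ep ⊗ₖ (G.E ⊗ₖ G.A a))
      simpa using (Rel.refl ep).kron ((Rel.refl G.E).kron (G.EA a))
  · intro i hi
    change Rel (-1) _ (hh ⊗ₖ (G.E ⊗ₖ G.Y))
    rcases stepP_cases G j P i hi with ⟨h1, h2⟩ | ⟨k, h1, rfl, h2⟩ | ⟨rfl, h2⟩ <;> rw [h2]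
    · simpa using (Rel.one_left hh).kron ((Rel.one_left G.E).kron (h.PY i h1))
    · simpa using (Rel.one_left hh).kron ((h.PE k h1).kron (Rel.refl G.Y))
    · simpa using ep_hh.kron ((Rel.refl G.E).kron G.EY)
  · intro i hi
    change Rel (-1) _ (hh ⊗ₖ (G.Y ⊗ₖ G.E))
    rcases stepP_cases G j P i hi with ⟨h1, h2⟩ | ⟨k, h1, rfl, h2⟩ | ⟨rfl, h2⟩ <;> rw [h2]
    · simpa using (Rel.one_left hh).kron ((Rel.one_left G.Y).kron (h.PE i h1))
    · simpa using (Rel.one_left hh).kron ((h.PY k h1).kron G.YE)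
    · simpa using ep_hh.kron (G.EY.kron (Rel.refl G.E))
  · rintro i hi ⟨b, x, x'⟩
    rcases stepP_cases G j P i hi with ⟨h1, h2⟩ | ⟨k, h1, rfl, h2⟩ | ⟨rfl, h2⟩ <;> rw [h2] <;>
    simp only [kroneckerMap_apply]
    · rw [h.P0 i h1]; ring
    · rw [h.P0 k h1]; ring
    · rw [ep_self]; ring
  · rintro ⟨b, x, x'⟩ ⟨c, y, y'⟩ hne
    by_cases hbc : b = c
    · subst hbc
      by_cases hxy : x = y
      · subst hxy
        have hx' : x' ≠ y' := fun h' => hne (by rw [h'])
        obtain ⟨i, hi, h1, h2⟩ := h.sup x' y' hx'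
        refine ⟨i, by omega, ?_, ?_⟩
        · have e1 : stepP G j P i = _ := if_pos hi
          rw [e1]
          simp only [kroneckerMap_apply, one_apply_eq, one_mul]
          exact h1
        · intro i' hi' hne'
          rcases stepP_cases G j P i' hi' with ⟨h3, h4⟩ | ⟨k, h3, rfl, h4⟩ | ⟨rfl, h4⟩ <;> rw [h4] <;>
          simp only [kroneckerMap_apply]
          · rw [h2 i' h3 hne']; ring
          · rw [h.P0 k h3]; ring
          · rw [ep_self]; ring
      · obtain ⟨i, hi, h1, h2⟩ := h.sup x y hxy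
        refine ⟨i + j, by omega, ?_, ?_⟩
        · have e1 : stepP G j P (i + j) = (1 : Matrix (Fin 2) (Fin 2) ℤ) ⊗ₖ (P i ⊗ₖ G.Y) := by
            unfold stepP
            rw [if_neg (by omega), if_pos (by omega), Nat.add_sub_cancel]
          rw [e1]
          simp only [kroneckerMap_apply, one_apply_eq, one_mul]
          exact h1.mul (G.Ys _ _)
        · intro i' hi' hne'
          rcases stepP_cases G j P i' hi' with ⟨h3, h4⟩ | ⟨k, h3, rfl, h4⟩ | ⟨rfl, h4⟩ <;> rw [h4] <;>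
          simp only [kroneckerMap_apply]
          · rw [one_apply_ne hxy]; ring
          · rw [h2 k h3 (by omega)]; ring
          · rw [ep_self]; ring
    · refine ⟨2 * j, by omega, ?_, ?_⟩
      · have e1 : stepP G j P (2 * j) = ep ⊗ₖ (G.E ⊗ₖ G.E) := by
          unfold stepP
          rw [if_neg (by omega), if_neg (by omega)]
        rw [e1]
        simp only [kroneckerMap_apply]
        exact (ep_ne _ _ hbc).mul ((G.Es _ _).mul (G.Es _ _))
      · intro i' hi' hne'
        rcases stepP_cases G j P i' hi' with ⟨h3, h4⟩ | ⟨k, h3, rfl, h4⟩ | ⟨rfl, h4⟩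
        · rw [h4]
          simp only [kroneckerMap_apply, one_apply_ne hbc, zero_mul]
        · rw [h4]
          simp only [kroneckerMap_apply, one_apply_ne hbc, zero_mul]
        · exact absurd rfl hne'

end step

/-- position masks of the pieces of the basic gadget -/
def mask : ℕ → ℕ
  | 0 => 28270415781076374480063399420383357223159665345770485827991357936004761600
  | 1 => 282697687226095549246456063121506174825362991998649151839508030587918091520
  | 2 => 6336003325119478647004676360373325466764465655743675805830437671092322582640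
  | _ => 51248631475395233500373201813055839171553060966025929507298598924381640831630

/-- the pieces of the basic gadget -/
def bP (i : ℕ) : Matrix (Fin 16) (Fin 16) ℤ := Matrix.of fun x y =>
  if (mask i).testBit (16 * x.val + y.val) then bD x y else 0

set_option maxRecDepth 100000 in
theorem s_T : ∀ i : Fin 4, ∀ x y : Fin 16, bP i.val y x = - bP i.val x y := by decide +kernel

set_option maxRecDepth 100000 in
theorem s_sq : ∀ i : Fin 4, ∀ x y : Fin 16, ∑ k : Fin 16, bP i.val x k * bP i.val k y =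
    if x = y then -(2 : ℤ) ^ i.val else 0 := by decide +kernel

set_option maxRecDepth 100000 in
theorem s_anti : ∀ i i' : Fin 4, i ≠ i' → ∀ x y : Fin 16,
    ∑ k : Fin 16, (bP i.val x k * bP i'.val k y + bP i'.val x k * bP i.val k y) = 0 := by
  decide +kernel

set_option maxRecDepth 100000 in
theorem s_F : ∀ i : Fin 4, ∀ x y : Fin 16,
    ∑ k : Fin 16, (bP i.val x k * bF k y + bF x k * bP i.val k y) = 0 := by decide +kernel

set_option maxRecDepth 100000 in
theorem s_E : ∀ i : Fin 4, ∀ x y : Fin 16,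
    ∑ k : Fin 16, (bP i.val x k * bE k y + bE x k * bP i.val k y) = 0 := by decide +kernel

set_option maxRecDepth 100000 in
theorem s_Y : ∀ i : Fin 4, ∀ x y : Fin 16,
    ∑ k : Fin 16, (bP i.val x k * bY k y + bY x k * bP i.val k y) = 0 := by decide +kernel

set_option maxRecDepth 100000 in
theorem s_sup : ∀ x y : Fin 16, x ≠ y → ∃ i : Fin 4, (bP i.val x y = 1 ∨ bP i.val x y = -1) ∧
    ∀ i' : Fin 4, i' ≠ i → bP i'.val x y = 0 := by decide +kernel

theorem spl_base : Spl base 4 bP := by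
  refine ⟨by simp, ?_, ?_, ?_, ?_, ?_, ?_, ?_, ?_⟩
  · intro i hi
    ext x y
    exact s_T ⟨i, hi⟩ x y
  · intro i hi
    exact sq_eq (s_sq ⟨i, hi⟩)
  · intro i hi i' hi' hne
    exact rel_neg (s_anti ⟨i, hi⟩ ⟨i', hi'⟩ (by simpa using hne))
  · intro i hi _
    exact rel_neg (s_F ⟨i, hi⟩)
  · intro i hi
    exact rel_neg (s_E ⟨i, hi⟩)
  · intro i hi
    exact rel_neg (s_Y ⟨i, hi⟩)
  · intro i hi x
    have := s_T ⟨i, hi⟩ x x
    simp only at this
    omega
  · intro x y hxy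
    obtain ⟨i, h1, h2⟩ := s_sup x y hxy
    refine ⟨i.val, i.isLt, h1, fun i' hi' hne => h2 ⟨i', hi'⟩ fun h => hne ?_⟩
    rw [← h]

/-- split gadgets with `2 ^ k` arms of order `2 ^ (5 * 2 ^ k - 1)` -/
theorem exists_spl (k : ℕ) : ∃ (ι κ : Type) (_ : Fintype ι) (_ : DecidableEq ι) (_ : Fintype κ)
    (_ : DecidableEq κ) (G : Gad ι κ) (P : ℕ → Matrix ι ι ℤ),
      Spl G (5 * 2 ^ k - 1) P ∧ Fintype.card κ = 2 ^ k := by
  induction k with
  | zero => exact ⟨Fin 16, Fin 1, inferInstance, inferInstance, inferInstance, inferInstance,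
      base, bP, by simpa using spl_base, by simp⟩
  | succ k ih =>
    obtain ⟨ι, κ, i1, i2, i3, i4, G, P, h1, h2⟩ := ih
    refine ⟨Fin 2 × (ι × ι), Fin 2 × κ, inferInstance, inferInstance, inferInstance,
      inferInstance, G.step, stepP G (5 * 2 ^ k - 1) P, ?_, ?_⟩
    · have e : 5 * 2 ^ (k + 1) - 1 = 2 * (5 * 2 ^ k - 1) + 1 := by
        have : 1 ≤ 2 ^ k := Nat.one_le_two_pow
        rw [pow_succ]
        omega
      rw [e]
      exact h1.step
    · rw [Fintype.card_prod, Fintype.card_fin, h2, pow_succ']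

end Pool.Agent.Q148.PH
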