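import Pool.Agent.Q148.PH.Arm

/-!
# Systems of disjoint weighing matrices
-/

set_option autoImplicit false
set_option linter.unusedSectionVars false

namespace Pool.Agent.Q148.PH

open Matrix Finset
open scoped Kronecker
open Pool.Agent.Y342.SK
open Pool.Agent.H108R3.Had (IsPU)

theorem bits (n : ℕ) : ∀ e < 2 ^ n, ∃ B ⊆ range n, ∑ i ∈ B, 2 ^ i = e := by
  induction n with
  | zero => exact fun e he => ⟨∅, by simp, by simp at he; simp [he]⟩
  | succ n ih =>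
    intro e he
    by_cases h : e < 2 ^ n
    · obtain ⟨B, h1, h2⟩ := ih e h
      exact ⟨B, h1.trans (range_subset_range.2 (by omega)), h2⟩
    · obtain ⟨B, h1, h2⟩ := ih (e - 2 ^ n) (by rw [pow_succ] at he; omega)
      refine ⟨insert n B, ?_, ?_⟩
      · intro i hi
        rw [mem_insert] at hi
        rcases hi with rfl | hi
        · simp
        · have := mem_range.1 (h1 hi)
          rw [mem_range]; omega
      · have hn : n ∉ B := fun h' => by simpa using h1 h'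
        rw [sum_insert hn, h2]
        omega

section gen

variable {ν : Type} [Fintype ν] [DecidableEq ν]

theorem rel_sum {s : ℤ} {T : ℕ → Matrix ν ν ℤ} {X : Matrix ν ν ℤ} (B : Finset ℕ)
    (h : ∀ i ∈ B, Rel s (T i) X) : Rel s (∑ i ∈ B, T i) X := by
  unfold Pool.Agent.Y342.SK.Rel at *
  rw [Finset.sum_mul, Finset.mul_sum, Finset.smul_sum]
  exact Finset.sum_congr rfl h

theorem rel_sum' {s : ℤ} {T : ℕ → Matrix ν ν ℤ} {X : Matrix ν ν ℤ} (B : Finset ℕ)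
    (h : ∀ i ∈ B, Rel s X (T i)) : Rel s X (∑ i ∈ B, T i) := by
  unfold Pool.Agent.Y342.SK.Rel at *
  rw [Finset.sum_mul, Finset.mul_sum, Finset.smul_sum]
  exact Finset.sum_congr rfl h

theorem sum_sq {T : ℕ → Matrix ν ν ℤ} {w : ℕ → ℤ} (B : Finset ℕ)
    (h : ∀ i ∈ B, T i * T i = w i • (1 : Matrix ν ν ℤ))
    (h' : ∀ i ∈ B, ∀ i' ∈ B, i ≠ i' → Rel (-1) (T i) (T i')) :
    (∑ i ∈ B, T i) * (∑ i ∈ B, T i) = (∑ i ∈ B, w i) • (1 : Matrix ν ν ℤ) := by
  induction B using Finset.induction_on with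
  | empty => simp
  | insert a B ha ih =>
    rw [sum_insert ha, sum_insert ha, sq_add, h a (mem_insert_self _ _),
      ih (fun i hi => h i (mem_insert_of_mem hi))
        (fun i hi i' hi' => h' i (mem_insert_of_mem hi) i' (mem_insert_of_mem hi')), add_smul]
    exact rel_sum' B fun i hi => h' a (mem_insert_self _ _) i (mem_insert_of_mem hi)
      (fun h' => ha (h' ▸ hi))

/-- `(1 + K)(1 + K)ᵀ` -/
theorem one_add_T {K : Matrix ν ν ℤ} {w : ℤ} (hT : Kᵀ = -K) (hK : K * K = (-w) • (1 : Matrix ν ν ℤ)) :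
    (1 + K) * (1 + K)ᵀ = (1 + w) • (1 : Matrix ν ν ℤ) := by
  rw [transpose_add, transpose_one, hT]
  have e : (1 + K) * (1 + -K) = 1 - K * K := by noncomm_ring
  rw [e, hK, neg_smul, sub_neg_eq_add, add_smul, one_smul]

theorem skew_T {K : Matrix ν ν ℤ} {w : ℤ} (hT : Kᵀ = -K) (hK : K * K = (-w) • (1 : Matrix ν ν ℤ)) :
    K * Kᵀ = w • (1 : Matrix ν ν ℤ) := by
  rw [hT, mul_neg, hK, neg_smul, neg_neg]

theorem skew_skew {K K' : Matrix ν ν ℤ} (hT : Kᵀ = -K) (hT' : K'ᵀ = -K') (h : Rel (-1) K K') :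
    K * K'ᵀ + K' * Kᵀ = 0 := by
  unfold Pool.Agent.Y342.SK.Rel at h
  rw [hT, hT', mul_neg, mul_neg, h]
  simp

theorem one_skew {K K' : Matrix ν ν ℤ} (hT : Kᵀ = -K) (hT' : K'ᵀ = -K') (h : Rel (-1) K K') :
    (1 + K) * K'ᵀ + K' * (1 + K)ᵀ = 0 := by
  rw [transpose_add, transpose_one, add_mul, mul_add, one_mul, mul_one]
  have := skew_skew hT hT' h
  rw [hT'] at this ⊢
  have e : -K' + K * -K' + (K' + K' * Kᵀ) = K * -K' + K' * Kᵀ := by abel
  rw [e, this]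

end gen

variable {ι κ : Type} [Fintype ι] [DecidableEq ι] [Fintype κ] [DecidableEq κ]

/-- the small skew pieces -/
def TT (G : Gad ι κ) (j : ℕ) (P : ℕ → Matrix ι ι ℤ) (h : ℕ) (i : ℕ) :
    Matrix (ι × Fin (2 * h)) (ι × Fin (2 * h)) ℤ :=
  if i < j then P i ⊗ₖ (1 : Matrix (Fin (2 * h)) (Fin (2 * h)) ℤ) else G.E ⊗ₖ Nz (2 * h) h

section TT

variable {G : Gad ι κ} {j : ℕ} {P : ℕ → Matrix ι ι ℤ} (hP : Spl G j P) {h : ℕ} (hh0 : 0 < h)

theorem TT_lt {i : ℕ} (hi : i < j) :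
    TT G j P h i = P i ⊗ₖ (1 : Matrix (Fin (2 * h)) (Fin (2 * h)) ℤ) := if_pos hi

theorem TT_j : TT G j P h j = G.E ⊗ₖ Nz (2 * h) h := if_neg (lt_irrefl _)

include hh0 in
theorem Nz_half_T : (Nz (2 * h) (h : ℤ))ᵀ = -Nz (2 * h) (h : ℤ) := by
  have h1 := Nz_shift (m := 2 * h) (-(h : ℤ)) (by omega)
  have e : -(h : ℤ) + ((2 * h : ℕ) : ℤ) = h := by push_cast; ring
  rw [e] at h1
  rw [Nz_T, h1, neg_neg]

include hP hh0 in
theorem TT_T {i : ℕ} (hi : i ≤ j) : (TT G j P h i)ᵀ = -TT G j P h i := by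
  rcases hi.lt_or_eq with h1 | rfl
  · rw [TT_lt h1, ← kroneckerMap_transpose, hP.PT i h1, transpose_one]
    ext a b
    simp only [Matrix.neg_apply, kroneckerMap_apply]
    ring
  · rw [TT_j, ← kroneckerMap_transpose, G.ET, Nz_half_T hh0]
    ext a b
    simp only [Matrix.neg_apply, kroneckerMap_apply]
    ring

include hP hh0 in
theorem TT_sq {i : ℕ} (hi : i ≤ j) : TT G j P h i * TT G j P h i =
    (-(2 : ℤ) ^ i) • (1 : Matrix (ι × Fin (2 * h)) (ι × Fin (2 * h)) ℤ) := by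
  rcases hi.lt_or_eq with h1 | rfl
  · rw [TT_lt h1, ← mul_kronecker_mul, hP.sq i h1, one_mul, smul_kronecker, one_kronecker_one]
  · have h2 : Nz (2 * h) (h : ℤ) * Nz (2 * h) (h : ℤ) = (-1 : ℤ) • 1 := by
      rw [Nz_mul (by omega)]
      have h1 := Nz_shift (m := 2 * h) 0 (by omega)
      rw [zero_add, Nz_one (by omega)] at h1
      have e : (h : ℤ) + h = ((2 * h : ℕ) : ℤ) := by push_cast; ring
      rw [e, h1]
      simp
    rw [TT_j, ← mul_kronecker_mul, G.EE, h2, smul_one_kron, hP.card]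
    congr 1
    push_cast
    ring

include hP in
theorem TT_anti {i i' : ℕ} (hi : i ≤ j) (hi' : i' ≤ j) (hne : i ≠ i') :
    Rel (-1) (TT G j P h i) (TT G j P h i') := by
  rcases hi.lt_or_eq with h1 | rfl <;> rcases hi'.lt_or_eq with h2 | rfl
  · rw [TT_lt h1, TT_lt h2]
    simpa using (hP.anti i h1 i' h2 hne).kron
      (Rel.refl (1 : Matrix (Fin (2 * h)) (Fin (2 * h)) ℤ))
  · rw [TT_lt h1, TT_j]
    simpa using (hP.PE i h1).kron (Rel.one_left (Nz (2 * h) (h : ℤ)))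
  · rw [TT_lt h2, TT_j]
    simpa using ((hP.PE i' h2).symm (by norm_num)).kron (Rel.one_right (Nz (2 * h) (h : ℤ)))
  · exact absurd rfl hne

include hP in
theorem TT_FF {i : ℕ} (hi : i ≤ j) (C : κ → Matrix (Fin (2 * h)) (Fin (2 * h)) ℤ)
    (hC : ∀ a, Nz (2 * h) h * C a = C a * Nz (2 * h) h)
    (hC' : ∀ a, Nz (2 * h) h * (C a)ᵀ = (C a)ᵀ * Nz (2 * h) h) :
    Rel (-1) (TT G j P h i) (FF G C) := by
  rcases hi.lt_or_eq with h1 | rfl
  · rw [TT_lt h1]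
    exact X_FF G (s := -1) (by norm_num) (by rw [hP.PT i h1, neg_one_smul]) (hP.PA i h1) C
      (fun a => by rw [one_mul, mul_one]) (fun a => by rw [one_mul, mul_one])
  · rw [TT_j]
    exact X_FF G (s := 1) (by norm_num) (by rw [G.ET, one_smul]) G.EA C hC hC'

/-- sums of the small pieces -/
def TS (G : Gad ι κ) (j : ℕ) (P : ℕ → Matrix ι ι ℤ) (h : ℕ) (B : Finset ℕ) :
    Matrix (ι × Fin (2 * h)) (ι × Fin (2 * h)) ℤ := ∑ i ∈ B, TT G j P h i

include hP hh0 in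
theorem TS_T {B : Finset ℕ} (hB : B ⊆ range (j + 1)) : (TS G j P h B)ᵀ = -TS G j P h B := by
  unfold TS
  rw [transpose_sum, ← Finset.sum_neg_distrib]
  exact Finset.sum_congr rfl fun i hi => TT_T hP hh0 (by have := mem_range.1 (hB hi); omega)

include hP hh0 in
theorem TS_sq {B : Finset ℕ} (hB : B ⊆ range (j + 1)) : TS G j P h B * TS G j P h B =
    (∑ i ∈ B, -(2 : ℤ) ^ i) • (1 : Matrix (ι × Fin (2 * h)) (ι × Fin (2 * h)) ℤ) :=
  sum_sq B (fun i hi => TT_sq hP hh0 (by have := mem_range.1 (hB hi); omega))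
    fun i hi i' hi' hne => TT_anti hP (by have := mem_range.1 (hB hi); omega)
      (by have := mem_range.1 (hB hi'); omega) hne

include hP in
theorem TS_rel {B B' : Finset ℕ} (hB : B ⊆ range (j + 1)) (hB' : B' ⊆ range (j + 1))
    (hd : Disjoint B B') : Rel (-1) (TS G j P h B) (TS G j P h B') :=
  rel_sum B fun i hi => rel_sum' B' fun i' hi' =>
    TT_anti hP (by have := mem_range.1 (hB hi); omega)
      (by have := mem_range.1 (hB' hi'); omega) fun h' =>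
        (Finset.disjoint_left.1 hd hi) (h' ▸ hi')

include hP in
theorem TS_FF {B : Finset ℕ} (hB : B ⊆ range (j + 1))
    (C : κ → Matrix (Fin (2 * h)) (Fin (2 * h)) ℤ)
    (hC : ∀ a, Nz (2 * h) h * C a = C a * Nz (2 * h) h)
    (hC' : ∀ a, Nz (2 * h) h * (C a)ᵀ = (C a)ᵀ * Nz (2 * h) h) :
    Rel (-1) (TS G j P h B) (FF G C) :=
  rel_sum B fun i hi => TT_FF hP (by have := mem_range.1 (hB hi); omega) C hC hC'

end TT

section seqs

variable {k : ℕ}

/-- sign of the auxiliary coordinate -/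
def sg2 (b : Fin 2) : ℤ := if b = 0 then 1 else -1

/-- the sequences: trivial character for `t < s`, nontrivial character for `t = s` -/
def sq (s : ℕ) (W : ℕ → ℕ → Fin (2 ^ k) → Fin (2 ^ k) → ℤ) (i₀ : Fin (2 ^ k)) (t : ℕ)
    (a : Fin 2 × Fin (2 ^ k)) (n : ℕ) : ℤ :=
  (if t < s then 1 else sg2 a.1) * W t n i₀ a.2

/-- the circulants of the sequences -/
def cc (m s : ℕ) (L o : ℕ → ℕ) (W : ℕ → ℕ → Fin (2 ^ k) → Fin (2 ^ k) → ℤ) (i₀ : Fin (2 ^ k))
    (e : κ ≃ Fin 2 × Fin (2 ^ k)) (t : ℕ) (a : κ) : Matrix (Fin m) (Fin m) ℤ :=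
  cm m (L t) (o t) (sq s W i₀ t (e a))

theorem cm_smul (m S o : ℕ) (c : ℤ) (f : ℕ → ℤ) : cm m S o (fun n => c * f n) = c • cm m S o f := by
  unfold cm
  rw [Finset.smul_sum]
  exact Finset.sum_congr rfl fun n _ => by rw [smul_smul]

variable {m s : ℕ} (hm : 0 < m) {L o : ℕ → ℕ} {W : ℕ → ℕ → Fin (2 ^ k) → Fin (2 ^ k) → ℤ}
  {i₀ : Fin (2 ^ k)} {e : κ ≃ Fin 2 × Fin (2 ^ k)}

theorem cc_eq (t : ℕ) (a : κ) : cc m s L o W i₀ e t a =
    (if t < s then (1 : ℤ) else sg2 (e a).1) • cm m (L t) (o t) (fun n => W t n i₀ (e a).2) := by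
  unfold cc sq
  exact cm_smul _ _ _ _ _

include hm in
theorem cc_sum (hW : ∀ t ≤ s, IsPU (L t) (W t)) {t : ℕ} (ht : t ≤ s) :
    ∑ a, cc m s L o W i₀ e t a * (cc m s L o W i₀ e t a)ᵀ =
      (2 * 2 ^ k * (L t : ℤ)) • (1 : Matrix (Fin m) (Fin m) ℤ) := by
  obtain ⟨g, hg⟩ : ∃ g : Fin 2 × Fin (2 ^ k) → Matrix (Fin m) (Fin m) ℤ,
      g = fun b => cm m (L t) (o t) (fun n => W t n i₀ b.2) *
        (cm m (L t) (o t) (fun n => W t n i₀ b.2))ᵀ := ⟨_, rfl⟩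
  have h1 : ∀ a, cc m s L o W i₀ e t a * (cc m s L o W i₀ e t a)ᵀ = g (e a) := by
    intro a
    rw [hg, cc_eq, transpose_smul, smul_mul_smul_comm]
    have : (if t < s then (1 : ℤ) else sg2 (e a).1) * (if t < s then (1 : ℤ) else sg2 (e a).1) = 1 := by
      split_ifs
      · norm_num
      · unfold sg2; split_ifs <;> norm_num
    rw [this, one_smul]
  rw [Finset.sum_congr rfl fun a _ => h1 a, Equiv.sum_comp e g, hg, Fintype.sum_prod_type]
  simp only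
  rw [Finset.sum_congr rfl fun _ _ => cm_sum hm (hW t ht) i₀ (o t), Finset.sum_const, card_univ,
    Fintype.card_fin, Fintype.card_fin, ← Nat.cast_smul_eq_nsmul ℤ, smul_smul]
  congr 1
  push_cast
  ring

include hm in
theorem cc_cross {t : ℕ} (ht : t < s) :
    ∑ a, cc m s L o W i₀ e t a * (cc m s L o W i₀ e s a)ᵀ = 0 := by
  obtain ⟨g, hg⟩ : ∃ g : Fin 2 × Fin (2 ^ k) → Matrix (Fin m) (Fin m) ℤ,
      g = fun b => sg2 b.1 • (cm m (L t) (o t) (fun n => W t n i₀ b.2) *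
        (cm m (L s) (o s) (fun n => W s n i₀ b.2))ᵀ) := ⟨_, rfl⟩
  have h1 : ∀ a, cc m s L o W i₀ e t a * (cc m s L o W i₀ e s a)ᵀ = g (e a) := by
    intro a
    rw [hg, cc_eq, cc_eq, if_pos ht, if_neg (lt_irrefl s), one_smul, transpose_smul, mul_smul_comm]
  rw [Finset.sum_congr rfl fun a _ => h1 a, Equiv.sum_comp e g, hg, Fintype.sum_prod_type]
  simp only [Fin.sum_univ_two, sg2]
  simp

include hm in
theorem cc_comm (t t' : ℕ) (a a' : κ) : cc m s L o W i₀ e t a * cc m s L o W i₀ e t' a' =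
    cc m s L o W i₀ e t' a' * cc m s L o W i₀ e t a := cm_comm hm _ _ _ _ _ _

include hm in
theorem cc_commT (t t' : ℕ) (a a' : κ) : cc m s L o W i₀ e t a * (cc m s L o W i₀ e t' a')ᵀ =
    (cc m s L o W i₀ e t' a')ᵀ * cc m s L o W i₀ e t a := cm_commT hm _ _ _ _ _ _

include hm in
theorem cc_Nz (t : ℕ) (a : κ) (d : ℤ) : Nz m d * cc m s L o W i₀ e t a =
    cc m s L o W i₀ e t a * Nz m d := cm_Nz hm _ _ _ _

include hm in
theorem ccT_Nz (t : ℕ) (a : κ) (d : ℤ) : Nz m d * (cc m s L o W i₀ e t a)ᵀ =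
    (cc m s L o W i₀ e t a)ᵀ * Nz m d := cmT_Nz hm _ _ _ _

end seqs

end Pool.Agent.Q148.PH
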