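import Pool.Agent.Q148.PH.Ent

/-!
# The system of weighing matrices
-/

set_option autoImplicit false
set_option linter.unusedSectionVars false

namespace Pool.Agent.Q148.PH

open Matrix Finset
open scoped Kronecker
open Pool.Agent.Y342.SK
open Pool.Agent.H108R3.Had (IsPU PUk PU)

/-- disjoint weighing matrices `S 0, …, S (s - 1), E` which together fill all positions, with
weights `a, b, …, b, e`, and `S t * Eᵀ` skew -/
structure Sys {ν : Type} [Fintype ν] [DecidableEq ν] (s : ℕ) (a b e : ℤ)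
    (S : ℕ → Matrix ν ν ℤ) (E : Matrix ν ν ℤ) : Prop where
  S0 : S 0 * (S 0)ᵀ = a • (1 : Matrix ν ν ℤ)
  St : ∀ t, 0 < t → t < s → S t * (S t)ᵀ = b • (1 : Matrix ν ν ℤ)
  EE : E * Eᵀ = e • (1 : Matrix ν ν ℤ)
  SE : ∀ t < s, S t * Eᵀ + E * (S t)ᵀ = 0
  ent : ∀ (ε : ℕ → ℤ) (η : ℤ), (∀ t < s, Sg (ε t)) → Sg η → ∀ x y,
    Sg (∑ t ∈ range s, ε t * S t x y + η * E x y)

variable {ι κ : Type} [Fintype ι] [DecidableEq ι] [Fintype κ] [DecidableEq κ]
variable {k : ℕ} {G : Gad ι κ} {j : ℕ} {P : ℕ → Matrix ι ι ℤ} (hP : Spl G j P)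
  {h s : ℕ} {L o : ℕ → ℕ} {W : ℕ → ℕ → Fin (2 ^ k) → Fin (2 ^ k) → ℤ}
  {i₀ : Fin (2 ^ k)} {e : κ ≃ Fin 2 × Fin (2 ^ k)}
  (h0 : o 0 = 0) (ho : ∀ t, o (t + 1) = o t + L t) (hh : h = o (s + 1) + 1)
  (hW : ∀ t ≤ s, IsPU (L t) (W t)) {β : ℕ} (hβ : ∀ t, 0 < t → t < s → L t = β) (hs : 0 < s)
  {B : Finset ℕ} (hB : B ⊆ range (j + 1))

include hP h0 ho hh hW hβ hs hB in
theorem system : Sys s
    (1 + ((∑ i ∈ range (j + 1) \ B, (2 : ℤ) ^ i) + 2 * 2 ^ j * (L 0 : ℤ)))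
    (2 * 2 ^ j * (β : ℤ)) ((∑ i ∈ B, (2 : ℤ) ^ i) + 2 * 2 ^ j * (L s : ℤ))
    (fun t => if t = 0 then 1 + (TS G j P h (range (j + 1) \ B) +
      FF G (cc (2 * h) s L o W i₀ e 0)) else FF G (cc (2 * h) s L o W i₀ e t))
    (TS G j P h B + FF G (cc (2 * h) s L o W i₀ e s)) := by
  have hh0 : 0 < h := by omega
  have hm : 0 < 2 * h := by omega
  have hB' : range (j + 1) \ B ⊆ range (j + 1) := sdiff_subset
  have hcard : (Fintype.card κ : ℤ) = 2 * 2 ^ k := by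
    rw [Fintype.card_congr e, Fintype.card_prod, Fintype.card_fin, Fintype.card_fin]
    push_cast; ring
  have hc : G.c * (2 * 2 ^ k) = 2 * 2 ^ j := by
    have := G.hc
    rw [hcard, hP.card] at this
    push_cast at this
    exact this
  have hF2 : ∀ t ≤ s, FF G (cc (2 * h) s L o W i₀ e t) * FF G (cc (2 * h) s L o W i₀ e t) =
      (-(2 * 2 ^ j * (L t : ℤ))) • (1 : Matrix (ι × Fin (2 * h)) (ι × Fin (2 * h)) ℤ) := by
    intro t ht
    rw [FF_sq G _ (cc_comm hm t t) (cc_commT hm t t) (cc_sum hm hW ht)]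
    congr 1
    linear_combination (-(L t : ℤ)) * hc
  have hFF : ∀ t < s, Rel (-1) (FF G (cc (2 * h) s L o W i₀ e t))
      (FF G (cc (2 * h) s L o W i₀ e s)) := fun t ht =>
    FF_rel G _ _ (cc_comm hm t s) (cc_commT hm t s) (cc_cross hm ht)
  have hTF : ∀ {B' : Finset ℕ}, B' ⊆ range (j + 1) → ∀ t,
      Rel (-1) (TS G j P h B') (FF G (cc (2 * h) s L o W i₀ e t)) := fun hB1 t =>
    TS_FF hP hB1 _ (fun a => cc_Nz hm t a _) (fun a => ccT_Nz hm t a _)
  have hET : (TS G j P h B + FF G (cc (2 * h) s L o W i₀ e s))ᵀ =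
      -(TS G j P h B + FF G (cc (2 * h) s L o W i₀ e s)) := by
    rw [transpose_add, TS_T hP hh0 hB, FF_T, neg_add]
  have hKT : (TS G j P h (range (j + 1) \ B) + FF G (cc (2 * h) s L o W i₀ e 0))ᵀ =
      -(TS G j P h (range (j + 1) \ B) + FF G (cc (2 * h) s L o W i₀ e 0)) := by
    rw [transpose_add, TS_T hP hh0 hB', FF_T, neg_add]
  refine ⟨?_, ?_, ?_, ?_, ?_⟩
  · simp only [if_true]
    refine one_add_T hKT ?_
    rw [sq_add (hTF hB' 0), TS_sq hP hh0 hB', hF2 0 (by omega), ← add_smul]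
    congr 1
    rw [Finset.sum_neg_distrib]
    ring
  · intro t ht1 ht2
    simp only [if_neg ht1.ne']
    refine skew_T (FF_T G _) ?_
    rw [hF2 t ht2.le, hβ t ht1 ht2]
  · refine skew_T hET ?_
    rw [sq_add (hTF hB s), TS_sq hP hh0 hB, hF2 s le_rfl, ← add_smul]
    congr 1
    rw [Finset.sum_neg_distrib]
    ring
  · intro t ht
    by_cases ht0 : t = 0
    · simp only [if_pos ht0]
      refine one_skew hKT hET ?_
      refine Rel.add_left (Rel.add_right ?_ (hTF hB' s)) (Rel.add_right ?_ (hFF 0 hs))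
      · exact TS_rel hP hB' hB sdiff_disjoint
      · exact (hTF hB 0).symm (by norm_num)
    · simp only [if_neg ht0]
      refine skew_skew (FF_T G _) hET ?_
      exact Rel.add_right ((hTF hB t).symm (by norm_num)) (hFF t ht)
  · intro ε η hε hη x y
    have h1 := entries (e := e) (i₀ := i₀) hP h0 ho hh hW (ζ := ε 0) (hε 0 hs)
      (γ := fun i => if i ∈ B then η else ε 0)
      (fun i _ => by split_ifs; exacts [hη, hε 0 hs])
      (ε := fun t => if t < s then ε t else η)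
      (fun t _ => by split_ifs with h'; exacts [hε t h', hη]) x y
    convert h1 using 1
    have e1 : ∑ i ∈ range (j + 1), (if i ∈ B then η else ε 0) * TT G j P h i x y =
        ε 0 * TS G j P h (range (j + 1) \ B) x y + η * TS G j P h B x y := by
      rw [← Finset.sum_sdiff hB]
      unfold TS
      rw [Matrix.sum_apply, Matrix.sum_apply, Finset.mul_sum, Finset.mul_sum]
      congr 1
      · exact Finset.sum_congr rfl fun i hi => by rw [if_neg (mem_sdiff.1 hi).2]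
      · exact Finset.sum_congr rfl fun i hi => by rw [if_pos hi]
    have e2 : ∑ t ∈ range (s + 1), (if t < s then ε t else η) *
        FF G (cc (2 * h) s L o W i₀ e t) x y =
        ∑ t ∈ range s, ε t * FF G (cc (2 * h) s L o W i₀ e t) x y +
          η * FF G (cc (2 * h) s L o W i₀ e s) x y := by
      rw [Finset.sum_range_succ, if_neg (lt_irrefl s)]
      congr 1
      exact Finset.sum_congr rfl fun t ht => by rw [if_pos (mem_range.1 ht)]
    have e3 : ∑ t ∈ range s, ε t * (if t = 0 then 1 + (TS G j P h (range (j + 1) \ B) +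
        FF G (cc (2 * h) s L o W i₀ e 0)) else FF G (cc (2 * h) s L o W i₀ e t)) x y =
        ε 0 * (1 : Matrix (ι × Fin (2 * h)) (ι × Fin (2 * h)) ℤ) x y +
        ε 0 * TS G j P h (range (j + 1) \ B) x y +
        ∑ t ∈ range s, ε t * FF G (cc (2 * h) s L o W i₀ e t) x y := by
      rw [← Finset.sum_erase_add _ _ (mem_range.2 hs), ← Finset.sum_erase_add (range s)
        (fun t => ε t * FF G (cc (2 * h) s L o W i₀ e t) x y) (mem_range.2 hs), if_pos rfl,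
        Finset.sum_congr rfl fun t ht => by rw [if_neg (ne_of_mem_erase ht)]]
      simp only [Matrix.add_apply]
      ring
    rw [e1, e2]
    simp only [Matrix.add_apply] at e3 ⊢
    rw [e3]
    ring

/-- existence: all parameters -/
theorem exists_sys (k N : ℕ) (hN : N = 2 ^ (5 * 2 ^ (k + 1) - 1)) (s x₀ β y e₀ : ℕ) (hs : 0 < s)
    (he : e₀ < 2 * N) (h1 : PUk k x₀) (h2 : PUk k β) (h3 : PUk k y) :
    ∃ (ν : Type) (_ : Fintype ν) (_ : DecidableEq ν) (S : ℕ → Matrix ν ν ℤ) (E : Matrix ν ν ℤ),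
      Fintype.card ν = 2 * N * (x₀ + (s - 1) * β + y + 1) ∧
      Sys s (2 * N - e₀ + 2 * N * x₀) (2 * N * β) (e₀ + 2 * N * y) S E := by
  obtain ⟨ι, κ, i1, i2, i3, i4, G, P, hP, hκ⟩ := exists_spl (k + 1)
  obtain ⟨j, hj⟩ : ∃ j, j = 5 * 2 ^ (k + 1) - 1 := ⟨_, rfl⟩
  rw [← hj] at hP hN
  have e : κ ≃ Fin 2 × Fin (2 ^ k) := Fintype.equivOfCardEq (by
    rw [hκ, Fintype.card_prod, Fintype.card_fin, Fintype.card_fin, pow_succ']
  )
  obtain ⟨L, hL⟩ : ∃ L : ℕ → ℕ, L = fun t => if t = 0 then x₀ else if t < s then β else y := ⟨_, rfl⟩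
  obtain ⟨o, ho'⟩ : ∃ o : ℕ → ℕ, o = fun t => ∑ i ∈ range t, L i := ⟨_, rfl⟩
  have h0 : o 0 = 0 := by rw [ho']; simp
  have ho : ∀ t, o (t + 1) = o t + L t := by
    intro t; rw [ho']; exact Finset.sum_range_succ _ _
  have hPU : ∀ t, PUk k (L t) := by
    intro t
    rw [hL]
    simp only
    split_ifs
    exacts [h1, h2, h3]
  choose W hW using hPU
  obtain ⟨B, hB1, hB2⟩ := bits (j + 1) e₀ (by rw [pow_succ, ← hN]; omega)
  have i₀ : Fin (2 ^ k) := ⟨0, by positivity⟩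
  have hL0 : L 0 = x₀ := by rw [hL]; simp
  have hLs : L s = y := by rw [hL]; simp [hs.ne']
  have hLt : ∀ t, 0 < t → t < s → L t = β := by
    intro t h1 h2; rw [hL]; simp [h1.ne', h2]
  have hos : ∀ t, 0 < t → t ≤ s → o t = x₀ + (t - 1) * β := by
    intro t ht
    induction t, ht using Nat.le_induction with
    | base =>
      intro _
      change o (0 + 1) = _
      rw [ho, h0, hL0]; simp
    | succ t ht ih =>
      intro h2
      have ht' : 0 < t := by omega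
      rw [ho, ih (by omega), hLt t ht' (by omega)]
      obtain ⟨u, rfl⟩ : ∃ u, t = u + 1 := ⟨t - 1, by omega⟩
      simp only [Nat.add_sub_cancel]
      ring
  have ho1 : o (s + 1) = x₀ + (s - 1) * β + y := by rw [ho, hos s hs le_rfl, hLs]
  obtain ⟨S, E, key⟩ : ∃ S E, Sys (ν := ι × Fin (2 * (o (s + 1) + 1))) s
      (1 + ((∑ i ∈ range (j + 1) \ B, (2 : ℤ) ^ i) + 2 * 2 ^ j * (L 0 : ℤ)))
      (2 * 2 ^ j * (β : ℤ)) ((∑ i ∈ B, (2 : ℤ) ^ i) + 2 * 2 ^ j * (L s : ℤ)) S E :=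
    ⟨_, _, system (e := e) (i₀ := i₀) hP h0 ho (h := o (s + 1) + 1) rfl (fun t _ => hW t) hLt hs hB1⟩
  have h5 : (∑ i ∈ range (j + 1) \ B, (2 : ℤ) ^ i) + ∑ i ∈ B, (2 : ℤ) ^ i =
      ∑ i ∈ range (j + 1), (2 : ℤ) ^ i := Finset.sum_sdiff hB1
  have h6 : ∑ i ∈ range (j + 1), (2 : ℤ) ^ i = 2 * 2 ^ j - 1 := by
    have h7 : ∀ n, ∑ i ∈ range n, (2 : ℤ) ^ i = 2 ^ n - 1 := by
      intro n
      induction n with
      | zero => simp
      | succ n ih => rw [Finset.sum_range_succ, ih, pow_succ]; ring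
    rw [h7, pow_succ]; ring
  have h7 : ∑ i ∈ B, (2 : ℤ) ^ i = e₀ := by exact_mod_cast hB2
  have hN' : (N : ℤ) = 2 ^ j := by rw [hN]; push_cast; rfl
  rw [h6, h7] at h5
  have p1 : 1 + ((∑ i ∈ range (j + 1) \ B, (2 : ℤ) ^ i) + 2 * 2 ^ j * (L 0 : ℤ)) =
      2 * N - e₀ + 2 * N * x₀ := by
    rw [hL0, hN']
    linarith
  have p2 : (∑ i ∈ B, (2 : ℤ) ^ i) + 2 * 2 ^ j * (L s : ℤ) = e₀ + 2 * N * y := by
    rw [hLs, h7, hN']
  rw [p1, p2, ← hN'] at key
  refine ⟨ι × Fin (2 * (o (s + 1) + 1)), inferInstance, inferInstance, S, E, ?_, key⟩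
  rw [Fintype.card_prod, Fintype.card_fin, hP.card, ← hN, ho1]
  ring

end Pool.Agent.Q148.PH
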